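import Pool.Agent.Helper69K1.Gr.Stm

/-!
# Piece A: a nilpotent direction along which centralisers extend is a commutator
-/

set_option linter.unusedSectionVars false

namespace Pool.Agent.Helper69K1.Gr

open Module Pool.Agent.Helper69K1 Polynomial

section

variable {S : Type} [Ring S] [Algebra ℚ S] [FiniteDimensional ℚ S] {τ : S →ₗ[ℚ] ℚ}

/-- `a ↦ x a - a x`. -/
def adx (x : S) : S →ₗ[ℚ] S := LinearMap.mulLeft ℚ x - LinearMap.mulRight ℚ x

omit [FiniteDimensional ℚ S] in
lemma adx_apply (x a : S) : adx x a = x * a - a * x := rfl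

/-- The form is nondegenerate: all functionals are `b ↦ τ (a b)`. -/
lemma exists_rep (h : TrAlg τ) (f : S →ₗ[ℚ] ℚ) : ∃ a, ∀ b, f b = τ (a * b) := by
  let B : S →ₗ[ℚ] Module.Dual ℚ S := (LinearMap.mul ℚ S).compr₂ τ
  have hB : ∀ a b, B a b = τ (a * b) := fun a b => rfl
  have hinj : Function.Injective B := by
    rw [← LinearMap.ker_eq_bot, LinearMap.ker_eq_bot']
    intro a ha
    refine h.nondeg a fun b => ?_
    rw [← hB, ha]
    rfl
  have hsurj : Function.Surjective B :=
    (LinearMap.injective_iff_surjective_of_finrank_eq_finrank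
      (Subspace.dual_finrank_eq (K := ℚ) (V := S)).symm).1 hinj
  obtain ⟨a, ha⟩ := hsurj f
  exact ⟨a, fun b => by rw [← hB, ha]⟩

/-- Duality for the derivation `ad x`. -/
lemma exists_comm (h : TrAlg τ) {x Z : S} (hZ : ∀ y, x * y = y * x → τ (Z * y) = 0) :
    ∃ s, Z = s * x - x * s := by
  obtain ⟨g, hg⟩ : ∃ g : Module.Dual ℚ S, (adx x).dualMap g = (LinearMap.mul ℚ S).compr₂ τ Z := by
    have h1 : (LinearMap.mul ℚ S).compr₂ τ Z ∈ LinearMap.range (adx x).dualMap := by
      rw [LinearMap.range_dualMap_eq_dualAnnihilator_ker, Submodule.mem_dualAnnihilator]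
      intro y hy
      rw [LinearMap.mem_ker, adx_apply, sub_eq_zero] at hy
      exact hZ y hy
    exact h1
  obtain ⟨s, hs⟩ := exists_rep h g
  refine ⟨s, ?_⟩
  rw [← sub_eq_zero]
  refine h.nondeg _ fun b => ?_
  have h1 : τ (Z * b) = τ (s * (x * b - b * x)) := by
    rw [← adx_apply, ← hs]
    exact (LinearMap.congr_fun hg b).symm
  have h2 : τ (s * (b * x)) = τ (x * (s * b)) := by
    rw [← mul_assoc, h.comm]
  rw [sub_mul, map_sub, h1, mul_sub, map_sub, h2, sub_mul, map_sub, mul_assoc, mul_assoc, sub_self]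

end

theorem t_A (h1 : S_JM1) (h2 : S_JM2) : S_A := by
  intro S _ _ _ τ hτ x Z hnil hext
  have hx : IsNilpotent x := by
    have := hnil 0
    rwa [zero_smul, add_zero] at this
  obtain ⟨F, hF⟩ := h1 S τ hτ x hx
  set H := x * F - F * x with hH
  have hHx : H * x - x * H = x := by
    have e : H * x - x * H = -(x * H - H * x) := by abel
    rw [e, hF, neg_neg]
  refine exists_comm hτ fun y₀ hy₀ => ?_
  obtain ⟨y, hy, rfl⟩ := h2 S x F H hx rfl hF y₀ hy₀
  obtain ⟨v, hv0, hv, d, hd⟩ := hext y hy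
  -- the polynomial in `t`
  have key : ∀ t : ℚ, ∑ j ∈ Finset.range (d + 1), t ^ j * τ (x * v j) +
      ∑ j ∈ Finset.range (d + 1), t ^ (j + 1) * τ (Z * v j) = 0 := by
    intro t
    set Y : S := ∑ j ∈ Finset.range (d + 1), t ^ j • v j with hY
    have hcomm : (x + t • Z) * Y = Y * (x + t • Z) := by
      rw [← sub_eq_zero]
      have e1 : (x + t • Z) * Y - Y * (x + t • Z) =
          ∑ j ∈ Finset.range (d + 1), t ^ j • (x * v j - v j * x) +
            ∑ j ∈ Finset.range (d + 1), t ^ (j + 1) • (Z * v j - v j * Z) := by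
        rw [hY, ← Finset.sum_add_distrib, Finset.mul_sum, Finset.sum_mul,
          ← Finset.sum_sub_distrib]
        refine Finset.sum_congr rfl fun j _ => ?_
        rw [mul_smul_comm, smul_mul_assoc, add_mul, mul_add, smul_mul_assoc, mul_smul_comm,
          pow_succ, mul_smul]
        simp only [smul_add, smul_sub]
        abel
      rw [e1, Finset.sum_range_succ', Finset.sum_range_succ (fun j => t ^ (j + 1) • _)]
      have e2 : x * v 0 - v 0 * x = 0 := by rw [hv0, hy, sub_self]
      have e3 : v d = 0 := hd d le_rfl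
      rw [e2, e3, smul_zero, add_zero, mul_zero, zero_mul, sub_zero, smul_zero, add_zero,
        ← Finset.sum_add_distrib]
      refine Finset.sum_eq_zero fun j _ => ?_
      rw [← smul_add, hv, smul_zero]
    have h3 : IsNilpotent ((x + t • Z) * Y) :=
      (Commute.isNilpotent_mul_right (x := x + t • Z) (y := Y) hcomm (hnil t))
    have h4 := hτ.nil _ h3
    rw [← Finset.sum_add_distrib, ← h4, hY, Finset.mul_sum, map_sum]
    refine Finset.sum_congr rfl fun j _ => ?_
    rw [mul_smul_comm, map_smul, add_mul, map_add, smul_mul_assoc, map_smul, smul_eq_mul,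
      smul_eq_mul, pow_succ]
    ring
  have hcoef : τ (x * v 1) + τ (Z * v 0) = 0 := by
    let p : ℚ[X] := ∑ j ∈ Finset.range (d + 1), C (τ (x * v j)) * X ^ j +
      ∑ j ∈ Finset.range (d + 1), C (τ (Z * v j)) * X ^ (j + 1)
    have hp : p = 0 := by
      refine Polynomial.funext fun t => ?_
      rw [eval_zero, ← key t]
      simp only [p, eval_add, eval_finsetSum, eval_mul, eval_C, eval_pow, eval_X]
      congr 1 <;> exact Finset.sum_congr rfl fun j _ => mul_comm _ _
    have h3 : p.coeff 1 = 0 := by rw [hp, coeff_zero]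
    have h4 : p.coeff 1 = (if 1 ∈ Finset.range (d + 1) then τ (x * v 1) else 0) +
        (if 0 ∈ Finset.range (d + 1) then τ (Z * v 0) else 0) := by
      simp only [p, coeff_add, finsetSum_coeff, coeff_C_mul, coeff_X_pow]
      congr 1
      · simp
      · simp
    rw [h4, if_pos (Finset.mem_range.2 (Nat.succ_pos d))] at h3
    by_cases hd1 : 1 ∈ Finset.range (d + 1)
    · rwa [if_pos hd1] at h3
    · have hv1 : v 1 = 0 := hd 1 (by
        rw [Finset.mem_range] at hd1
        omega)
      rw [if_neg hd1] at h3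
      rw [hv1, mul_zero, map_zero]
      exact h3
  rw [hv0] at hcoef
  have h5 : x * v 1 - v 1 * x = -(Z * y - y * Z) := by
    have := hv 0
    rw [zero_add, hv0] at this
    exact eq_neg_of_add_eq_zero_left this
  -- `τ (x v_1) = τ (H [x, v_1])`
  have h6 : τ (x * v 1) = τ (H * (x * v 1 - v 1 * x)) := by
    have e : τ (x * v 1) = τ ((H * x - x * H) * v 1) := by rw [hHx]
    have e2 : τ (x * H * v 1) = τ (H * (v 1 * x)) := by
      rw [mul_assoc, hτ.comm, mul_assoc]
    rw [e, sub_mul, map_sub, e2, mul_sub, map_sub, mul_assoc]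
  rw [h6, h5] at hcoef
  have e1 : τ (H * (y * Z)) = τ (Z * (H * y)) := by
    rw [← mul_assoc, hτ.comm]
  have e2 : τ (H * (Z * y)) = τ (Z * (y * H)) := by
    rw [hτ.comm, mul_assoc]
  rw [mul_neg, map_neg, mul_sub, map_sub, e1, e2] at hcoef
  rw [mul_add, map_add, mul_sub, map_sub]
  linarith

end Pool.Agent.Helper69K1.Gr
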