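import Pool.Agent.Helper69K1.Conj
import Pool.Agent.H420_NCF.Clo

/-!
# The algebra generated by a list of matrices, in polynomial time
-/

set_option linter.unusedSectionVars false

namespace Pool.Agent.Helper69K1.Gr

open Module Pool.Agent.NPC Pool.Agent.NPC.H532 Pool.Agent.H420_NCF Pool.Agent.H687R2.LLL
open Pool.Agent.Helper69K1
open scoped Matrix

variable {α : Type} [TEnc α]

/-- The identity matrix. -/
def idM (N : ℕ) : Mat := tab N fun i j => if i = j then 1 else 0

theorem poly_idM {N : α → ℕ} (hN : UPoly N) : Poly (fun a => idM (N a)) := by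
  unfold idM
  refine Poly_tab (f := fun _ i j => if i = j then 1 else 0) hN ?_
  exact Poly.ite (p := fun q : (α × ℕ) × ℕ => q.1.2 = q.2)
    (Poly.decide_eq (Poly.snd (Poly.fst Poly.id)) (Poly.snd Poly.id)) (NPC.Poly.const 1)
    (NPC.Poly.const 0)

theorem mq_idM (N : ℕ) : mq N (idM N) = 1 := by
  ext i j
  rw [mq, idM, entry_tab _ i.2 j.2, Matrix.one_apply]
  by_cases h : i = j
  · rw [if_pos (by rw [h]), if_pos h]; simp
  · rw [if_neg (fun h' => h (Fin.ext h')), if_neg h]; simp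

/-- Right multiplication on the vectors of entries. -/
def rM (N : ℕ) (Z : Mat) : Mat :=
  tab (N * N) fun p q => if p / N = q / N then entry Z (p % N) (q % N) else 0

theorem poly_rM {N : α → ℕ} {Z : α → Mat} (hN : UPoly N) (hZ : Poly Z) :
    Poly (fun a => rM (N a) (Z a)) := by
  unfold rM
  refine Poly_tab (f := fun a p q => if p / N a = q / N a then entry (Z a) (p % N a) (q % N a)
    else 0) (hN.mul hN) ?_
  have h1 : Poly (fun p : (α × ℕ) × ℕ => p.1.1) := Poly.fst (Poly.fst Poly.id)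
  have h2 : Poly (fun p : (α × ℕ) × ℕ => p.1.2) := Poly.snd (Poly.fst Poly.id)
  have h3 : Poly (fun p : (α × ℕ) × ℕ => p.2) := Poly.snd Poly.id
  have h4 : Poly (fun p : (α × ℕ) × ℕ => N p.1.1) := hN.toPoly.comp h1
  exact Poly.ite (p := fun q : (α × ℕ) × ℕ => q.1.2 / N q.1.1 = q.2 / N q.1.1)
    (Poly.decide_eq (NPC.Poly.div h2 h4) (NPC.Poly.div h3 h4))
    (Poly_entry (hZ.comp h1) (NPC.Poly.mod h2 h4) (NPC.Poly.mod h3 h4)) (NPC.Poly.const 0)

theorem isMat_rM (N : ℕ) (Z : Mat) : IsMat (N * N) (N * N) (rM N Z) := isMat_tab _ _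

theorem umL_vecMul (N : ℕ) (Z : Mat) (w : Fin (N * N) → ℚ) :
    umL N (w ᵥ* mq (N * N) (rM N Z)) = umL N w * mq N Z := by
  have hu : ∀ (d : Fin (N * N) → ℚ) (i j : Fin N), umL N d i j = d ⟨i * N + j, idx_lt i j⟩ := by
    intro d i j
    change um N (fun k => if h : k < N * N then d ⟨k, h⟩ else 0) i j = _
    rw [um, dif_pos (idx_lt i j)]
  ext i j
  rw [hu, Matrix.mul_apply, Matrix.vecMul, dotProduct]
  have e1 : ∀ q : Fin (N * N), w q * mq (N * N) (rM N Z) q ⟨i * N + j, idx_lt i j⟩ =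
      if (q : ℕ) / N = i then w q * ((entry Z ((q : ℕ) % N) j : ℤ) : ℚ) else 0 := by
    intro q
    rw [mq, rM, entry_tab _ q.2 (idx_lt i j)]
    obtain ⟨h1, h2⟩ := idx_div i j
    rw [h1, h2]
    split_ifs <;> simp
  rw [Finset.sum_congr rfl fun q _ => e1 q, ← Finset.sum_filter]
  symm
  refine Finset.sum_bij (fun (k : Fin N) _ => (⟨i * N + k, idx_lt i k⟩ : Fin (N * N))) ?_ ?_ ?_ ?_
  · intro k _
    rw [Finset.mem_filter]
    exact ⟨Finset.mem_univ _, (idx_div i k).1⟩
  · intro k _ k' _ h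
    have := congrArg Fin.val h
    simp only [Nat.add_left_cancel_iff] at this
    exact Fin.ext this
  · intro q hq
    rw [Finset.mem_filter] at hq
    have hN : 0 < N := lt_of_le_of_lt (Nat.zero_le _) i.2
    refine ⟨⟨(q : ℕ) % N, Nat.mod_lt _ hN⟩, Finset.mem_univ _, Fin.ext ?_⟩
    change (i : ℕ) * N + (q : ℕ) % N = q
    rw [← hq.2, Nat.mul_comm]
    exact Nat.div_add_mod _ _
  · intro k _
    rw [hu]
    simp only
    rw [(idx_div i k).2]
    rfl

/-- The closure of a space of row vectors under matrices. -/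
noncomputable def cloF : List (List (List ℤ)) × List (List ℤ) → List (List ℤ) := (clo selS).choose

theorem poly_cloF : Poly cloF := (clo selS).choose_spec.1

/-- A basis of the algebra generated by the matrices `Zs`. -/
noncomputable def algF (N : ℕ) (Zs : List Mat) : List Mat :=
  (cloF (Zs.map fun Z => rM N Z, [flat N (idM N)])).map fun u => unflat N u

theorem poly_algF {N : α → ℕ} {Zs : α → List Mat} (hN : UPoly N) (hZ : Poly Zs) :
    Poly (fun a => algF (N a) (Zs a)) := by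
  unfold algF
  refine NPC.Poly.map (F := fun a u => unflat (N a) u) (poly_cloF.comp (Poly.pair
    (NPC.Poly.map (F := fun a Z => rM (N a) Z) hZ ?_)
    (Poly.cons (poly_flat hN (poly_idM hN)) (NPC.Poly.const [])))) ?_
  · exact poly_rM (hN.comp (Poly.fst Poly.id)) (Poly.snd Poly.id)
  · exact poly_unflat (hN.comp (Poly.fst Poly.id)) (Poly.snd Poly.id)

theorem umL_flat (N : ℕ) (B : Mat) : umL N (vq (N * N) (flat N B)) = mq N B := by
  ext i j
  change um N (fun k => if h : k < N * N then vq (N * N) (flat N B) ⟨k, h⟩ else 0) i j = _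
  rw [um, dif_pos (idx_lt i j), vq]
  simp only
  rw [getD_flat N B (idx_lt i j), (idx_div i j).1, (idx_div i j).2, mq]

theorem umL_vq (N : ℕ) (u : List ℤ) : umL N (vq (N * N) u) = mq N (unflat N u) := by
  rw [mq_unflat, ← umL_apply]
  rfl

theorem spB_algF (N : ℕ) (Zs : List Mat) :
    spB N (algF N Zs) = Subalgebra.toSubmodule
      (Algebra.adjoin ℚ {M : Matrix (Fin N) (Fin N) ℚ | ∃ Z ∈ Zs, M = mq N Z}) := by
  set Ms := Zs.map fun Z => rM N Z with hMs
  obtain ⟨-, -, h3, h4, h5⟩ := (clo selS).choose_spec.2 (N * N) Ms [flat N (idM N)]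
    (by
      intro M hM
      obtain ⟨Z, -, rfl⟩ := List.mem_map.1 hM
      exact isMat_rM N Z)
    (by
      intro v hv
      rw [List.mem_singleton.1 hv]
      exact length_flat _ _)
  change vspan (N * N) [flat N (idM N)] ≤ vspan (N * N) (cloF (Ms, [flat N (idM N)])) at h3
  change ∀ M ∈ Ms, ∀ w ∈ vspan (N * N) (cloF (Ms, [flat N (idM N)])), w ᵥ* mq (N * N) M ∈
    vspan (N * N) (cloF (Ms, [flat N (idM N)])) at h4
  set C := cloF (Ms, [flat N (idM N)]) with hC
  set A := Algebra.adjoin ℚ {M : Matrix (Fin N) (Fin N) ℚ | ∃ Z ∈ Zs, M = mq N Z} with hA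
  have hsp : spB N (algF N Zs) = (vspan (N * N) C).map (umL N) := by
    rw [spB, vspan, Submodule.map_span]
    congr 1
    ext M
    constructor
    · rintro ⟨B, hB, rfl⟩
      obtain ⟨u, hu, rfl⟩ := List.mem_map.1 hB
      exact ⟨vq (N * N) u, ⟨u, hu, rfl⟩, umL_vq N u⟩
    · rintro ⟨_, ⟨u, hu, rfl⟩, rfl⟩
      exact ⟨unflat N u, List.mem_map.2 ⟨u, hu, rfl⟩, umL_vq N u⟩
  rw [hsp]
  set W := (vspan (N * N) C).map (umL N) with hW
  have h1W : (1 : Matrix (Fin N) (Fin N) ℚ) ∈ W := by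
    refine ⟨vq (N * N) (flat N (idM N)), h3 (Submodule.subset_span ⟨_, List.mem_singleton.2 rfl,
      rfl⟩), ?_⟩
    rw [umL_flat, mq_idM]
  have hWZ : ∀ Z ∈ Zs, ∀ w ∈ W, w * mq N Z ∈ W := by
    rintro Z hZ _ ⟨w, hw, rfl⟩
    rw [← umL_vecMul]
    exact ⟨_, h4 _ (List.mem_map.2 ⟨Z, hZ, rfl⟩) w hw, rfl⟩
  apply le_antisymm
  · rintro _ ⟨w, hw, rfl⟩
    have h6 := h5 ((Subalgebra.toSubmodule A).comap (umL N)) (by
      refine Submodule.span_le.2 ?_
      rintro _ ⟨v, hv, rfl⟩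
      rw [List.mem_singleton.1 hv]
      change umL N (vq (N * N) (flat N (idM N))) ∈ A
      rw [umL_flat, mq_idM]
      exact A.one_mem) (by
      intro M hM w hw
      obtain ⟨Z, hZ, rfl⟩ := List.mem_map.1 hM
      change umL N (w ᵥ* mq (N * N) (rM N Z)) ∈ A
      rw [umL_vecMul]
      exact A.mul_mem hw (Algebra.subset_adjoin ⟨Z, hZ, rfl⟩))
    exact h6 hw
  · intro a ha
    have key : ∀ a ∈ A, ∀ w ∈ W, w * a ∈ W := by
      intro a ha
      refine Algebra.adjoin_induction (p := fun a _ => ∀ w ∈ W, w * a ∈ W) ?_ ?_ ?_ ?_ ha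
      · rintro _ ⟨Z, hZ, rfl⟩ w hw
        exact hWZ Z hZ w hw
      · intro r w hw
        rw [Algebra.algebraMap_eq_smul_one, mul_smul_comm, mul_one]
        exact W.smul_mem _ hw
      · intro x y _ _ hx hy w hw
        rw [mul_add]
        exact W.add_mem (hx w hw) (hy w hw)
      · intro x y _ _ hx hy w hw
        rw [← mul_assoc]
        exact hy _ (hx w hw)
    have := key a ha 1 h1W
    rwa [one_mul] at this

end Pool.Agent.Helper69K1.Gr
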