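import Pool.Agent.Helper69K1.Gr.Stm

/-!
# Piece B: elements of `ad S x` in `h` are commutators of `x` with elements of `com h κ`
-/

set_option autoImplicit false

namespace Pool.Agent.Helper69K1.Gr

open Module Pool.Agent.Helper69K1

lemma com_le_deg {S : Type} [Ring S] [Algebra ℚ S] {κ : ℕ} {h : Submodule ℚ S} (g : Grad κ h)
    (j : ℕ) : com h j ≤ g.deg ((j : ZMod (κ + 1)) + 1) := by
  induction j with
  | zero =>
    have : ((0 : ℕ) : ZMod (κ + 1)) + 1 = 1 := by simp
    rw [this]
    exact g.le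
  | succ j ih =>
    show Submodule.span ℚ {c | ∃ a ∈ h, ∃ b ∈ com h j, c = a * b - b * a} ≤ _
    rw [Submodule.span_le]
    rintro c ⟨a, ha, b, hb, rfl⟩
    have h1 := g.mul _ _ a (g.le ha) b (ih hb)
    have h2 := g.mul _ _ b (ih hb) a (g.le ha)
    have e1 : (1 : ZMod (κ + 1)) + (((j : ℕ) : ZMod (κ + 1)) + 1) =
        ((j + 1 : ℕ) : ZMod (κ + 1)) + 1 := by push_cast; ring
    have e2 : (((j : ℕ) : ZMod (κ + 1)) + 1) + 1 = ((j + 1 : ℕ) : ZMod (κ + 1)) + 1 := by
      push_cast; ring
    rw [e1] at h1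
    rw [e2] at h2
    exact sub_mem h1 h2

lemma com_period (hC : S_COM) {S : Type} [Ring S] [Algebra ℚ S] (κ : ℕ) (h : Submodule ℚ S)
    (hκ : com h (κ + 1) ≤ h) (j m : ℕ) : com h (j + m * (κ + 1)) ≤ com h j := by
  induction m with
  | zero => simp
  | succ m ih =>
    have e : j + (m + 1) * (κ + 1) = (j + m * (κ + 1)) + (κ + 1) := by ring
    rw [e]
    exact ((hC S h).2.1 (κ + 1) hκ (j + m * (κ + 1))).trans ih

theorem t_B (hC : S_COM) (h1 : S_B1) : S_B := by
  intro S _ _ _ τ hτ κ h hκ hadj hg x hx Z hZ s hs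
  obtain ⟨g⟩ := hg
  set L : Submodule ℚ S := ⨆ j, com h j with hL
  have hjL : ∀ j, com h j ≤ L := fun j => le_iSup (fun j => com h j) j
  have hhL : h ≤ L := hjL 0
  -- `L` is a Lie algebra
  have hLie : ∀ a ∈ L, ∀ b ∈ L, a * b - b * a ∈ L := by
    intro a ha b hb
    refine Submodule.iSup_induction (fun j => com h j)
      (motive := fun a => a * b - b * a ∈ L) ha ?_ ?_ ?_
    · intro i a ha
      refine Submodule.iSup_induction (fun j => com h j)
        (motive := fun b => a * b - b * a ∈ L) hb ?_ ?_ ?_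
      · intro j b hb
        exact hjL _ ((hC S h).1 i j a ha b hb)
      · simp
      · intro b b' hb hb'
        have : a * (b + b') - (b + b') * a = (a * b - b * a) + (a * b' - b' * a) := by
          noncomm_ring
        rw [this]
        exact add_mem hb hb'
    · simp
    · intro a a' ha ha'
      have : (a + a') * b - b * (a + a') = (a * b - b * a) + (a' * b - b * a') := by
        noncomm_ring
      rw [this]
      exact add_mem ha ha'
  have hadjL : Algebra.adjoin ℚ (L : Set S) = ⊤ := by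
    rw [eq_top_iff, ← hadj]
    exact Algebra.adjoin_mono hhL
  have hnd := h1 S τ hτ L hLie hadjL
  -- the commutators of elements of `L + ctr S`
  have hLt : ∀ a ∈ L ⊔ ctr S, ∀ y ∈ L, a * y - y * a ∈ L := by
    intro a ha y hy
    obtain ⟨b, hb, c, hc, rfl⟩ := Submodule.mem_sup.1 ha
    have hc' : c * y = y * c := hc y
    have : (b + c) * y - y * (b + c) = b * y - y * b := by
      rw [add_mul, mul_add, hc']; abel
    rw [this]
    exact hLie b hb y hy
  -- the orthogonal projection of `s`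
  obtain ⟨l, hl, hsl⟩ : ∃ l ∈ L ⊔ ctr S, ∀ l' ∈ L ⊔ ctr S, τ ((s - l) * l') = 0 := by
    let Φ : (L ⊔ ctr S : Submodule ℚ S) →ₗ[ℚ] Module.Dual ℚ (L ⊔ ctr S : Submodule ℚ S) :=
      LinearMap.mk₂ ℚ (fun a b => τ ((a : S) * b))
        (fun a a' b => by simp [add_mul])
        (fun c a b => by simp)
        (fun a b b' => by simp [mul_add])
        (fun c a b => by simp)
    have hinj : Function.Injective Φ := by
      rw [← LinearMap.ker_eq_bot, LinearMap.ker_eq_bot']
      intro a ha
      have h2 := hnd a a.2 (fun l' hl' => by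
        have := congrArg (fun f => f ⟨l', hl'⟩) ha
        exact this)
      exact Subtype.ext h2
    have hsurj : Function.Surjective Φ := by
      refine (LinearMap.injective_iff_surjective_of_finrank_eq_finrank ?_).1 hinj
      rw [Subspace.dual_finrank_eq]
    let ψ : Module.Dual ℚ (L ⊔ ctr S : Submodule ℚ S) :=
      (τ.comp (LinearMap.mulLeft ℚ s)).comp (L ⊔ ctr S).subtype
    obtain ⟨l, hl⟩ := hsurj ψ
    refine ⟨l, l.2, fun l' hl' => ?_⟩
    have h3 : τ ((l : S) * l') = τ (s * l') := congrArg (fun f => f ⟨l', hl'⟩) hl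
    rw [sub_mul, map_sub, h3, sub_self]
  -- `Z = [l, x]`
  have hxL : x ∈ L := hhL hx
  have hq : Z - (l * x - x * l) = 0 := by
    refine hnd _ (Submodule.mem_sup_left (sub_mem (hhL hZ) (hLt l hl x hxL))) ?_
    intro l' hl'
    have e1 : (Z - (l * x - x * l)) * l' = (s - l) * (x * l') - x * ((s - l) * l') := by
      rw [hs]; noncomm_ring
    have e2 : τ (x * ((s - l) * l')) = τ ((s - l) * (l' * x)) := by
      rw [hτ.comm, mul_assoc]
    rw [e1, map_sub, e2, ← map_sub, ← mul_sub]
    apply hsl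
    have h4 := hLt l' hl' x hxL
    have h5 : x * l' - l' * x = -(l' * x - x * l') := by abel
    rw [h5]
    exact Submodule.mem_sup_left (neg_mem h4)
  obtain ⟨l₁, hl₁, c, hc, rfl⟩ := Submodule.mem_sup.1 hl
  have hZ1 : Z = l₁ * x - x * l₁ := by
    have hc' : c * x = x * c := hc x
    rw [sub_eq_zero] at hq
    rw [hq, add_mul, mul_add, hc']; abel
  -- the component of degree one
  have key : ∃ l₂ ∈ com h κ, g.pr 1 (l₁ * x - x * l₁) = l₂ * x - x * l₂ := by
    refine Submodule.iSup_induction (fun j => com h j)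
      (motive := fun a => ∃ l₂ ∈ com h κ, g.pr 1 (a * x - x * a) = l₂ * x - x * l₂) hl₁ ?_ ?_ ?_
    · intro j a ha
      have had := com_le_deg g j ha
      have hxd := g.le hx
      have h2 := g.mul _ _ a had x hxd
      have h3 := g.mul _ _ x hxd a had
      rw [add_comm (1 : ZMod (κ + 1)) _] at h3
      have h4 := g.prj _ _ (sub_mem h2 h3) 1
      rw [h4]
      by_cases hj : (1 : ZMod (κ + 1)) = (j : ZMod (κ + 1)) + 1 + 1
      · rw [if_pos hj]
        have hj' : ((j + 1 : ℕ) : ZMod (κ + 1)) = 0 := by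
          have : ((j : ZMod (κ + 1)) + 1) + 1 - 1 = 0 := by rw [← hj]; simp
          push_cast
          simpa using this
        rw [ZMod.natCast_eq_zero_iff] at hj'
        obtain ⟨m, hm⟩ := hj'
        have hm0 : m ≠ 0 := by
          rintro rfl
          simp at hm
        obtain ⟨m', rfl⟩ := Nat.exists_eq_succ_of_ne_zero hm0
        have hjm : j = κ + m' * (κ + 1) := by
          have e3 : (κ + 1) * (m' + 1) = κ + m' * (κ + 1) + 1 := by ring
          have : j + 1 = κ + m' * (κ + 1) + 1 := by rw [hm]; exact e3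
          omega
        refine ⟨a, com_period hC κ h hκ κ m' ?_, rfl⟩
        rw [← hjm]
        exact ha
      · rw [if_neg hj]
        exact ⟨0, zero_mem _, by simp⟩
    · exact ⟨0, zero_mem _, by simp⟩
    · rintro a a' ⟨b, hb, hab⟩ ⟨b', hb', hab'⟩
      refine ⟨b + b', add_mem hb hb', ?_⟩
      have e4 : (a + a') * x - x * (a + a') = (a * x - x * a) + (a' * x - x * a') := by
        noncomm_ring
      rw [e4, map_add, hab, hab']
      noncomm_ring
  obtain ⟨l₂, hl₂, h5⟩ := key
  refine ⟨l₂, hl₂, ?_⟩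
  have h6 := g.prj 1 Z (g.le hZ) 1
  rw [if_pos rfl] at h6
  rw [← h5, ← hZ1, h6]

end Pool.Agent.Helper69K1.Gr
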