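import Pool.Agent.Helper69K1.Gr.Stm

/-!
# Piece B1 (helper3): the trace form on a generating Lie algebra plus the centre is nondegenerate
-/

set_option autoImplicit false

namespace Pool.Agent.Helper69K1.Gr

open Module Pool.Agent.Helper69K1

section B1

variable {S : Type} [Ring S] [Algebra ℚ S]

/-- If `D` is stable under commutators with `L`, which generates, then `D * ⊤ ≤ ⊤ * D`. -/
theorem b1_swap {L D : Submodule ℚ S} (hgen : Algebra.adjoin ℚ (L : Set S) = ⊤)
    (hst : ∀ d ∈ D, ∀ l ∈ L, d * l - l * d ∈ D) : D * ⊤ ≤ ⊤ * D := by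
  have key : ∀ s : S, ∀ d ∈ D, d * s ∈ (⊤ : Submodule ℚ S) * D := by
    intro s
    have hs : s ∈ Algebra.adjoin ℚ (L : Set S) := by rw [hgen]; trivial
    induction hs using Algebra.adjoin_induction with
    | mem l hl =>
      intro d hd
      have e : d * l = l * d + 1 * (d * l - l * d) := by rw [one_mul]; abel
      rw [e]
      exact Submodule.add_mem _ (Submodule.mul_mem_mul trivial hd)
        (Submodule.mul_mem_mul trivial (hst d hd l hl))
    | algebraMap r =>
      intro d hd
      rw [← Algebra.commutes]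
      exact Submodule.mul_mem_mul trivial hd
    | add a b _ _ ha hb =>
      intro d hd
      rw [mul_add]
      exact Submodule.add_mem _ (ha d hd) (hb d hd)
    | mul a b _ _ ha hb =>
      intro d hd
      rw [← mul_assoc]
      refine Submodule.mul_induction_on (C := fun z => z * b ∈ (⊤ : Submodule ℚ S) * D)
        (ha d hd) ?_ ?_
      · intro t _ d' hd'
        rw [mul_assoc]
        refine Submodule.mul_induction_on (C := fun z => t * z ∈ (⊤ : Submodule ℚ S) * D)
          (hb d' hd') ?_ ?_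
        · intro t' _ d'' hd''
          rw [← mul_assoc]
          exact Submodule.mul_mem_mul trivial hd''
        · intro u v hu hv
          rw [mul_add]
          exact Submodule.add_mem _ hu hv
      · intro u v hu hv
        rw [add_mul]
        exact Submodule.add_mem _ hu hv
  rw [Submodule.mul_le]
  intro d hd s _
  exact key s d hd

/-- A nilpotent subspace stable under commutators with a generating space is zero. -/
theorem b1_zero {τ : S →ₗ[ℚ] ℚ} (hτ : TrAlg τ) {L D : Submodule ℚ S}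
    (hgen : Algebra.adjoin ℚ (L : Set S) = ⊤)
    (hst : ∀ d ∈ D, ∀ l ∈ L, d * l - l * d ∈ D) {p : ℕ} (hp : D ^ p = ⊥) : ∀ d ∈ D, d = 0 := by
  have h1 := b1_swap hgen hst
  have h2 : ∀ k : ℕ, D ^ k * ⊤ ≤ ⊤ * D ^ k := by
    intro k
    induction k with
    | zero => rw [pow_zero, one_mul, mul_one]
    | succ k ih =>
      rw [pow_succ, mul_assoc]
      refine (mul_le_mul_right h1 _).trans ?_
      rw [← mul_assoc, ← mul_assoc]
      exact mul_le_mul_left ih _
  have h3 : ∀ k : ℕ, ((⊤ : Submodule ℚ S) * D) ^ (k + 1) ≤ ⊤ * D ^ (k + 1) := by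
    intro k
    induction k with
    | zero => rw [zero_add, pow_one, pow_one]
    | succ k ih =>
      rw [pow_succ]
      refine (mul_le_mul_left ih _).trans ?_
      rw [mul_assoc, ← mul_assoc (D ^ (k + 1))]
      refine (mul_le_mul_right (mul_le_mul_left (h2 (k + 1)) _) _).trans ?_
      rw [mul_assoc ⊤ (D ^ (k + 1)) D, ← pow_succ, ← mul_assoc]
      exact mul_le_mul_left le_top _
  intro d hd
  apply hτ.nondeg
  intro b
  rw [hτ.comm]
  apply hτ.nil
  refine ⟨p + 1, ?_⟩
  have h4 : b * d ∈ (⊤ : Submodule ℚ S) * D := Submodule.mul_mem_mul trivial hd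
  have h5 := Submodule.pow_mem_pow _ h4 (p + 1)
  have h6 := h3 p h5
  rw [pow_succ D, hp, Submodule.bot_mul, Submodule.mul_bot, Submodule.mem_bot] at h6
  exact h6

/-- A finite-dimensional space of commuting nilpotent elements is nilpotent. -/
theorem b1_comm [FiniteDimensional ℚ S] {D : Submodule ℚ S}
    (hc : ∀ a ∈ D, ∀ b ∈ D, a * b = b * a) (hn : ∀ a ∈ D, IsNilpotent a) :
    ∃ p : ℕ, D ^ p = ⊥ := by
  obtain ⟨m, Z, hZ⟩ : ∃ (m : ℕ) (Z : Fin m → S), Submodule.span ℚ (Set.range Z) = D :=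
    Submodule.fg_iff_exists_fin_generating_family.1 (IsNoetherian.noetherian D)
  have hZD : ∀ i, Z i ∈ D := fun i => by
    rw [← hZ]
    exact Submodule.subset_span ⟨i, rfl⟩
  obtain ⟨M, hM⟩ := nil_span (D := (⊥ : Submodule ℚ S)) (p := 1) (pow_one _) Z
    (fun i => hn _ (hZD i))
    (fun i j => by rw [hc _ (hZD i) _ (hZD j), sub_self]; exact Submodule.zero_mem _)
    (fun i a ha => by
      rw [Submodule.mem_bot] at ha
      rw [ha, mul_zero, zero_mul, sub_zero]
      exact Submodule.zero_mem _)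
  refine ⟨M, ?_⟩
  rwa [bot_sup_eq, hZ] at hM

end B1

theorem t_B1 : S_B1 := by
  intro S _ _ _ τ hτ L hL hgen
  have hctr : ∀ z ∈ ctr S, ∀ a, z * a = a * z := fun z hz => hz
  -- commutators of `Lt` are in `L`
  have hLt : ∀ a ∈ L ⊔ ctr S, ∀ b ∈ L ⊔ ctr S, a * b - b * a ∈ L := by
    intro a ha b hb
    obtain ⟨l, hl, c, hc, rfl⟩ := Submodule.mem_sup.1 ha
    obtain ⟨l', hl', c', hc', rfl⟩ := Submodule.mem_sup.1 hb
    have e : (l + c) * (l' + c') - (l' + c') * (l + c) = l * l' - l' * l := by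
      have e1 := hctr c hc l'
      have e2 := hctr c' hc' l
      have e3 := hctr c hc c'
      have : (l + c) * (l' + c') - (l' + c') * (l + c) = (l * l' - l' * l) +
        (c * l' - l' * c) - (c' * l - l * c') + (c * c' - c' * c) := by noncomm_ring
      rw [this, e1, e2, e3]
      abel
    rw [e]
    exact hL l hl l' hl'
  -- the radical
  let R : Submodule ℚ S :=
    { carrier := {r | r ∈ L ⊔ ctr S ∧ ∀ l' ∈ L ⊔ ctr S, τ (r * l') = 0}
      add_mem' := fun {a b} ha hb => ⟨Submodule.add_mem _ ha.1 hb.1, fun l' hl' => by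
        rw [add_mul, map_add, ha.2 l' hl', hb.2 l' hl', add_zero]⟩
      zero_mem' := ⟨Submodule.zero_mem _, fun l' _ => by rw [zero_mul, map_zero]⟩
      smul_mem' := fun c a ha => ⟨Submodule.smul_mem _ _ ha.1, fun l' hl' => by
        rw [smul_mul_assoc, map_smul, ha.2 l' hl', smul_zero]⟩ }
  have hRm : ∀ r, r ∈ R ↔ r ∈ L ⊔ ctr S ∧ ∀ l' ∈ L ⊔ ctr S, τ (r * l') = 0 := fun r => Iff.rfl
  have hLle : L ≤ L ⊔ ctr S := le_sup_left
  have hRid : ∀ r ∈ R, ∀ l ∈ L ⊔ ctr S, r * l - l * r ∈ R := by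
    intro r hr l hl
    rw [hRm] at hr ⊢
    refine ⟨hLle (hLt r hr.1 l hl), fun l' hl' => ?_⟩
    have h1 := hr.2 _ (hLle (hLt l hl l' hl'))
    have e : τ ((r * l - l * r) * l') = τ (r * (l * l' - l' * l)) := by
      have e1 : τ (l * r * l') = τ (r * l' * l) := by
        rw [mul_assoc, hτ.comm, mul_assoc]
      rw [sub_mul, map_sub, e1, mul_sub, map_sub, mul_assoc, mul_assoc]
    rw [e, h1]
  obtain ⟨p, hp⟩ := hτ.car R (fun a ha b hb => hRid a ha b ((hRm b).1 hb).1)
    (fun a ha b hb => ((hRm a).1 ha).2 b ((hRm b).1 hb).1)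
  -- `R` is commutative
  have hst1 : ∀ d ∈ comms R, ∀ l ∈ L, d * l - l * d ∈ comms R := by
    intro d hd l hl
    refine Submodule.span_induction (p := fun d _ => d * l - l * d ∈ comms R) ?_ ?_ ?_ ?_ hd
    · rintro _ ⟨a, ha, b, hb, rfl⟩
      have e : (a * b - b * a) * l - l * (a * b - b * a) =
          ((a * l - l * a) * b - b * (a * l - l * a)) +
          (a * (b * l - l * b) - (b * l - l * b) * a) := by noncomm_ring
      rw [e]
      exact Submodule.add_mem _ (comms_mem (hRid a ha l (hLle hl)) hb)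
        (comms_mem ha (hRid b hb l (hLle hl)))
    · rw [mul_zero, zero_mul, sub_zero]; exact Submodule.zero_mem _
    · intro b c _ _ hb hc
      have e : (b + c) * l - l * (b + c) = (b * l - l * b) + (c * l - l * c) := by
        rw [mul_add, add_mul]; abel
      rw [e]
      exact Submodule.add_mem _ hb hc
    · intro r b _ hb
      rw [mul_smul_comm, smul_mul_assoc, ← smul_sub]
      exact Submodule.smul_mem _ _ hb
  have hab : ∀ a ∈ R, ∀ b ∈ R, a * b = b * a := fun a ha b hb =>
    sub_eq_zero.1 (b1_zero hτ hgen hst1 hp _ (comms_mem ha hb))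
  -- powers of elements of `R` commute with `R`
  have hpc : ∀ a ∈ R, ∀ m : ℕ, ∀ b ∈ R, a ^ m * b = b * a ^ m := by
    intro a ha m b hb
    exact ((show Commute a b from hab a ha b hb).pow_left m).eq
  -- `D'`
  let D : Submodule ℚ S := Submodule.span ℚ {c | ∃ r ∈ R, ∃ l ∈ L ⊔ ctr S, c = r * l - l * r}
  have hDR : D ≤ R := by
    refine Submodule.span_le.2 ?_
    rintro _ ⟨r, hr, l, hl, rfl⟩
    exact hRid r hr l hl
  have hDt : ∀ a ∈ R, ∀ m : ℕ, ∀ d ∈ D, τ (d * a ^ m) = 0 := by
    intro a ha m d hd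
    refine Submodule.span_induction (p := fun d _ => τ (d * a ^ m) = 0) ?_ ?_ ?_ ?_ hd
    · rintro _ ⟨r, hr, l, hl, rfl⟩
      have e1 : τ (r * l * a ^ m) = τ (l * (a ^ m * r)) := by
        rw [mul_assoc, hτ.comm, mul_assoc]
      have e2 : τ (l * r * a ^ m) = τ (l * (a ^ m * r)) := by
        rw [mul_assoc, hpc a ha m r hr]
      rw [sub_mul, map_sub, e1, e2, sub_self]
    · rw [zero_mul, map_zero]
    · intro b c _ _ hb hc
      rw [add_mul, map_add, hb, hc, add_zero]
    · intro r b _ hb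
      rw [smul_mul_assoc, map_smul, hb, smul_zero]
  have hDn : ∀ d ∈ D, IsNilpotent d := by
    intro d hd
    apply hτ.nil'
    intro m hm
    obtain ⟨k, rfl⟩ : ∃ k, m = k + 1 := ⟨m - 1, by omega⟩
    rw [pow_succ']
    exact hDt d (hDR hd) k d hd
  obtain ⟨p', hp'⟩ := b1_comm (fun a ha b hb => hab a (hDR ha) b (hDR hb)) hDn
  have hD0 := b1_zero hτ hgen (D := D)
    (fun d hd l hl => Submodule.subset_span ⟨d, hDR hd, l, hLle hl, rfl⟩) hp'
  -- `R` is central
  intro r hr hr'
  have hrR : r ∈ R := (hRm r).2 ⟨hr, hr'⟩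
  have hrL : ∀ l ∈ L, r * l = l * r := fun l hl =>
    sub_eq_zero.1 (hD0 _ (Submodule.subset_span ⟨r, hrR, l, hLle hl, rfl⟩))
  have hrc : ∀ a, r * a = a * r := by
    intro a
    have ha : a ∈ Algebra.adjoin ℚ (L : Set S) := by rw [hgen]; trivial
    induction ha using Algebra.adjoin_induction with
    | mem l hl => exact hrL l hl
    | algebraMap q => exact (Algebra.commutes q r).symm
    | add a b _ _ ha hb => rw [mul_add, add_mul, ha, hb]
    | mul a b _ _ ha hb => rw [← mul_assoc, ha, mul_assoc, hb, mul_assoc]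
  have hpow : ∀ m : ℕ, r ^ m ∈ ctr S := by
    intro m a
    exact ((show Commute r a from hrc a).pow_left m).eq
  have hrn : IsNilpotent r := by
    apply hτ.nil'
    intro m hm
    obtain ⟨k, rfl⟩ : ∃ k, m = k + 1 := ⟨m - 1, by omega⟩
    rw [pow_succ']
    exact hr' _ (Submodule.mem_sup_right (hpow k))
  apply hτ.nondeg
  intro b
  apply hτ.nil
  obtain ⟨k, hk⟩ := hrn
  exact ⟨k, by rw [(show Commute r b from hrc b).mul_pow, hk, zero_mul]⟩

end Pool.Agent.Helper69K1.Gr
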