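import Pool.Agent.Helper69K1.Gr.Stm

/-!
# Piece D: the null component and the Fitting decomposition
-/

set_option linter.unusedSectionVars false

namespace Pool.Agent.Helper69K1.Gr

open Module Pool.Agent.Helper69K1

theorem com_mono_D {S : Type} [Ring S] [Algebra ℚ S] {h h' : Submodule ℚ S} (hh : h ≤ h')
    (j : ℕ) : com h j ≤ com h' j := by
  induction j with
  | zero => exact hh
  | succ j ih =>
      refine Submodule.span_mono ?_
      rintro c ⟨a, ha, b, hb, rfl⟩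
      exact ⟨a, hh ha, b, ih hb, rfl⟩

theorem ad_mem_com {n : Type} [Fintype n] [DecidableEq n] {B : Submodule ℚ (Matrix n n ℚ)}
    {x y : Matrix n n ℚ} (hx : x ∈ B) (hy : y ∈ B) (j : ℕ) : (adR ℚ x ^ j) y ∈ com B j := by
  induction j with
  | zero => exact hy
  | succ j ih =>
      rw [pow_succ', Module.End.mul_apply, adR_apply]
      exact Submodule.subset_span ⟨x, hx, _, ih, rfl⟩

theorem com_engel {n : Type} [Fintype n] [DecidableEq n] {B : Submodule ℚ (Matrix n n ℚ)}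
    {x : Matrix n n ℚ} {E : ℕ} (hE : finrank ℚ (Matrix n n ℚ) ≤ E) (j : ℕ) :
    com (nullC B x E) j ≤ LinearMap.ker (adR ℚ x ^ E) := by
  induction j with
  | zero => exact inf_le_right
  | succ j ih =>
      refine Submodule.span_le.2 ?_
      rintro c ⟨a, ha, b, hb, rfl⟩
      let _ := LieRing.ofAssociativeRing (A := Matrix n n ℚ)
      have h1 : a ∈ LieSubalgebra.engel ℚ x := mem_engel.2 ⟨E, ha.2⟩
      have h2 : b ∈ LieSubalgebra.engel ℚ x := mem_engel.2 ⟨E, ih hb⟩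
      have h3 := (LieSubalgebra.engel ℚ x).lie_mem h1 h2
      obtain ⟨k, hk⟩ := mem_engel.1 h3
      exact LinearMap.mem_ker.2 (mem_ker_of_pow hE hk)

theorem t_D0 : S_D := by
  intro n _ _ κ B hB x hx E hE
  refine ⟨fun c hc => ⟨hB (com_mono_D inf_le_left _ hc), com_engel hE _ hc⟩, ?_⟩
  intro Y hY
  set T := adR ℚ x ^ (κ + 1) with hT
  have hTB : ∀ y ∈ B, T y ∈ B := fun y hy => hB (ad_mem_com hx hy (κ + 1))
  set TB : End ℚ B := T.restrict hTB with hTBdef
  have hfin : finrank ℚ B ≤ E + 1 := ((Submodule.finrank_le B).trans hE).trans (by omega)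
  have hc := fitting TB hfin
  have h1 : (⟨Y, hY⟩ : B) ∈ LinearMap.ker (TB ^ (E + 1)) ⊔ LinearMap.range (TB ^ (E + 1)) := by
    rw [hc.sup_eq_top]; trivial
  obtain ⟨⟨s, hsB⟩, hs, _, ⟨⟨y, hyB⟩, rfl⟩, hsum⟩ := Submodule.mem_sup.1 h1
  have hpow : ∀ (k : ℕ) (u : B), ((TB ^ k) u : Matrix n n ℚ) = (T ^ k) u := by
    intro k u
    induction k with
    | zero => rfl
    | succ k ih =>
        rw [pow_succ', Module.End.mul_apply, pow_succ', Module.End.mul_apply, ← ih]
        rfl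
  have hs' : (T ^ (E + 1)) s = 0 := by
    rw [← hpow (E + 1) ⟨s, hsB⟩, LinearMap.mem_ker.1 hs]; rfl
  have hs2 : (adR ℚ x ^ ((κ + 1) * (E + 1))) s = 0 := by
    rw [pow_mul]; exact hs'
  refine ⟨s, ⟨hsB, LinearMap.mem_ker.2 (mem_ker_of_pow hE hs2)⟩, ?_⟩
  set y' : Matrix n n ℚ := (((TB ^ E) ⟨y, hyB⟩ : B) : Matrix n n ℚ) with hy'
  have hy'B : y' ∈ B := ((TB ^ E) ⟨y, hyB⟩).2
  set w : Matrix n n ℚ := (adR ℚ x ^ κ) y' with hw
  have hwc : w ∈ com B κ := ad_mem_com hx hy'B κ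
  refine ⟨-w, fun Z hZ => ?_, ?_⟩
  · have h4 : Z * w - w * Z ∈ B := hB (Submodule.subset_span ⟨Z, hZ, w, hwc, rfl⟩)
    convert! h4 using 1
    noncomm_ring
  · have h2 : Y = s + (((TB ^ (E + 1)) ⟨y, hyB⟩ : B) : Matrix n n ℚ) := by
      have := congrArg Subtype.val hsum
      exact this.symm
    have h3 : (((TB ^ (E + 1)) ⟨y, hyB⟩ : B) : Matrix n n ℚ) = x * w - w * x := by
      rw [pow_succ', Module.End.mul_apply]
      change T y' = _
      rw [hT, pow_succ', Module.End.mul_apply, adR_apply]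
    rw [h2, h3]
    noncomm_ring

theorem t_D (_hC : S_COM) : S_D := t_D0

end Pool.Agent.Helper69K1.Gr
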