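import Pool.Agent.Helper69K1.Gr.Stm

/-!
# Piece E: the Fitting idempotent
-/

namespace Pool.Agent.Helper69K1.Gr

open Module Pool.Agent.Helper69K1 Polynomial

/-- a polynomial in `x` which is the projection onto the null space of the powers of `x` -/
theorem exists_idem {n : Type} [Fintype n] [DecidableEq n] (x : Matrix n n ℚ) :
    ∃ e ∈ Algebra.adjoin ℚ ({x} : Set (Matrix n n ℚ)), e * e = e ∧
      x ^ Fintype.card n * e = 0 ∧ e * x ^ Fintype.card n = 0 ∧
      ∃ u : Matrix n n ℚ, 1 - e = u * x ^ Fintype.card n ∧ 1 - e = x ^ Fintype.card n * u := by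
  classical
  set N := Fintype.card n with hN
  have hp0 : x.charpoly ≠ 0 := (Matrix.charpoly_monic x).ne_zero
  obtain ⟨q, hq, hnd⟩ := Polynomial.exists_eq_pow_rootMultiplicity_mul_and_not_dvd x.charpoly hp0 0
  set a := Polynomial.rootMultiplicity 0 x.charpoly with ha
  rw [C_0, sub_zero] at hq hnd
  have haN : a ≤ N := by
    have h1 : q ≠ 0 := by
      rintro rfl
      exact hnd (dvd_zero _)
    have h2 := congrArg Polynomial.natDegree hq
    rw [Matrix.charpoly_natDegree_eq_dim, Polynomial.natDegree_mul (pow_ne_zero _ X_ne_zero) h1,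
      Polynomial.natDegree_X_pow] at h2
    omega
  have hco : IsCoprime ((X : ℚ[X]) ^ N) q := by
    apply IsCoprime.pow_left
    exact (Polynomial.irreducible_X.coprime_iff_not_dvd).2 hnd
  obtain ⟨u, v, huv⟩ := hco
  have hann : Polynomial.aeval x (X ^ N * q) = 0 := by
    have h1 : (X : ℚ[X]) ^ N * q = X ^ (N - a) * x.charpoly := by
      rw [hq, ← mul_assoc, ← pow_add, Nat.sub_add_cancel haN]
    rw [h1, map_mul, Matrix.aeval_self_charpoly, mul_zero]
  have hxN : Polynomial.aeval x ((X : ℚ[X]) ^ N) = x ^ N := by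
    rw [map_pow, Polynomial.aeval_X]
  have hmul : ∀ f : ℚ[X], Polynomial.aeval x (f * (X ^ N * q)) = 0 := by
    intro f
    rw [map_mul, hann, mul_zero]
  have h1e : 1 - Polynomial.aeval x (v * q) = Polynomial.aeval x (u * X ^ N) := by
    have h1 : (u * X ^ N : ℚ[X]) = 1 - v * q := by rw [← huv]; ring
    rw [h1, map_sub, map_one]
  refine ⟨Polynomial.aeval x (v * q), Polynomial.aeval_mem_adjoin_singleton ℚ x, ?_, ?_, ?_,
    Polynomial.aeval x u, ?_, ?_⟩
  · have h1 : Polynomial.aeval x (v * q) * (1 - Polynomial.aeval x (v * q)) = 0 := by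
      rw [h1e, ← map_mul, show v * q * (u * X ^ N) = (v * u) * (X ^ N * q) by ring]
      exact hmul _
    rw [mul_sub, mul_one, sub_eq_zero] at h1
    exact h1.symm
  · rw [← hxN, ← map_mul, show (X : ℚ[X]) ^ N * (v * q) = v * (X ^ N * q) by ring]
    exact hmul _
  · rw [← hxN, ← map_mul, show v * q * (X : ℚ[X]) ^ N = v * (X ^ N * q) by ring]
    exact hmul _
  · rw [h1e, map_mul, hxN]
  · rw [h1e, mul_comm u, map_mul, hxN]

/-- the idempotent commutes with everything that preserves both Fitting components -/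
theorem idem_comm {n : Type} [Fintype n] [DecidableEq n] {x e u y : Matrix n n ℚ}
    (h1 : x ^ Fintype.card n * e = 0) (h2 : e * x ^ Fintype.card n = 0)
    (h3 : 1 - e = u * x ^ Fintype.card n) (h4 : 1 - e = x ^ Fintype.card n * u)
    (hk : ∀ v : n → ℚ, (x ^ Fintype.card n).mulVec v = 0 →
      (x ^ Fintype.card n).mulVec (y.mulVec v) = 0)
    (hr : ∀ v : n → ℚ, ∃ v', y.mulVec ((x ^ Fintype.card n).mulVec v) =
      (x ^ Fintype.card n).mulVec v') : e * y = y * e := by
  set z := x ^ Fintype.card n with hz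
  have e1 : z * y * e = 0 := by
    apply Matrix.toLin'.injective
    refine LinearMap.ext fun v => ?_
    rw [Matrix.toLin'_apply, map_zero, LinearMap.zero_apply, ← Matrix.mulVec_mulVec,
      ← Matrix.mulVec_mulVec]
    apply hk
    rw [Matrix.mulVec_mulVec, h1, Matrix.zero_mulVec]
  have e2 : e * y * z = 0 := by
    apply Matrix.toLin'.injective
    refine LinearMap.ext fun v => ?_
    rw [Matrix.toLin'_apply, map_zero, LinearMap.zero_apply, ← Matrix.mulVec_mulVec,
      ← Matrix.mulVec_mulVec]
    obtain ⟨v', hv'⟩ := hr v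
    rw [hv', Matrix.mulVec_mulVec, h2, Matrix.zero_mulVec]
  have e3 : (1 - e) * (y * e) = 0 := by
    rw [h3, mul_assoc, ← mul_assoc z, e1, mul_zero]
  have e4 : (e * y) * (1 - e) = 0 := by
    rw [h4, ← mul_assoc, e2, zero_mul]
  rw [sub_mul, one_mul, sub_eq_zero] at e3
  rw [mul_sub, mul_one, sub_eq_zero] at e4
  rw [e4, e3, mul_assoc]

/-- piece E -/
theorem t_E : S_E := by
  intro n _ _ x hdet
  obtain ⟨e, he, hee, h1, h2, u, h3, h4⟩ := exists_idem x
  obtain ⟨v, hv0, hv⟩ := Matrix.exists_mulVec_eq_zero_iff.2 hdet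
  have hd0 : 0 < Fintype.card n := by
    rw [Fintype.card_pos_iff]
    by_contra h
    rw [not_nonempty_iff] at h
    exact hv0 (Subsingleton.elim _ _)
  have hfin : finrank ℚ (n → ℚ) ≤ Fintype.card n := by simp
  have hX : ∀ v : n → ℚ, (x ^ Fintype.card n).mulVec v =
      ((Matrix.toLin' x) ^ Fintype.card n) v := by
    intro v
    rw [← Matrix.toLin'_pow, Matrix.toLin'_apply]
  have hcomm : ∀ (E : ℕ) (y : Matrix n n ℚ), (adR ℚ x ^ E) y = 0 → e * y = y * e := by
    intro E y hy
    have hy0 : (adE (Matrix.toLin' x) ^ E) (Matrix.toLin' y) = 0 := by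
      rw [adE_toLin, hy, map_zero]
    apply idem_comm h1 h2 h3 h4
    · intro v hv
      rw [hX] at hv ⊢
      exact ker_stable hfin hy0 hv
    · intro v
      obtain ⟨v', hv'⟩ := range_stable hfin hy0 (v := ((Matrix.toLin' x) ^ Fintype.card n) v)
        ⟨v, rfl⟩
      refine ⟨v', ?_⟩
      rw [hX, hX, hv', Matrix.toLin'_apply]
  refine ⟨e, he, hee, ?_, hcomm, ?_, ?_⟩
  · intro h0
    rw [h0, sub_zero] at h3
    have h5 : (x ^ Fintype.card n).mulVec v = 0 := by
      rw [← Nat.sub_add_cancel hd0, pow_add, pow_one, ← Matrix.mulVec_mulVec, hv,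
        Matrix.mulVec_zero]
    have h6 : (u * x ^ Fintype.card n).mulVec v = 0 := by
      rw [← Matrix.mulVec_mulVec, h5, Matrix.mulVec_zero]
    rw [← h3, Matrix.one_mulVec] at h6
    exact hv0 h6
  · intro E y hy hst
    have hy0 : (adE (Matrix.toLin' x) ^ E) (Matrix.toLin' y) = 0 := by
      rw [adE_toLin, hy, map_zero]
    have hc : Commute e y := hcomm E y hy
    have hnil : ∀ v : n → ℚ, ((Matrix.toLin' x) ^ Fintype.card n) v = 0 →
        ((Matrix.toLin' y) ^ Fintype.card n) v = 0 := by
      intro v hv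
      refine nil_of_stuck hfin hy0 (fun s hs => ?_) hv
      have h5 : Matrix.toLin' y + s • Matrix.toLin' x =
          Matrix.toLin' (s • (x + (1 / s) • y)) := by
        rw [← map_smul, ← map_add]
        congr 1
        rw [smul_add, smul_smul, mul_div_cancel₀ _ hs, one_smul, add_comm]
      rw [h5, ← srk_eq, ← srk_eq, srk_smul _ hs]
      exact hst _
    refine ⟨Fintype.card n, ?_⟩
    have hen : ∀ k : ℕ, e ^ (k + 1) = e := by
      intro k
      induction k with
      | zero => rw [zero_add, pow_one]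
      | succ k ih => rw [pow_succ, ih, hee]
    have h5 : (e * y) ^ Fintype.card n = y ^ Fintype.card n * e := by
      have h6 : e ^ Fintype.card n = e := by
        rw [← Nat.sub_add_cancel hd0]
        exact hen _
      rw [hc.mul_pow, h6]
      exact (hc.pow_right _).eq
    rw [h5]
    apply Matrix.toLin'.injective
    refine LinearMap.ext fun v => ?_
    rw [Matrix.toLin'_apply, map_zero, LinearMap.zero_apply, ← Matrix.mulVec_mulVec]
    have h6 := hnil (e.mulVec v) (by
      rw [← hX, Matrix.mulVec_mulVec, h1, Matrix.zero_mulVec])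
    rw [← Matrix.toLin'_pow, Matrix.toLin'_apply] at h6
    exact h6
  · intro κ P hP i
    have hpow : ∀ (k : ℕ) (i : ZMod (κ + 1)), x ^ k * P i = P (i + k) * x ^ k := by
      intro k
      induction k with
      | zero => intro i; simp
      | succ k ih =>
        intro i
        rw [pow_succ, mul_assoc, hP, ← mul_assoc, ih, mul_assoc]
        congr 2
        push_cast
        ring
    apply idem_comm h1 h2 h3 h4
    · intro v hv
      rw [Matrix.mulVec_mulVec, hpow, ← Matrix.mulVec_mulVec, hv, Matrix.mulVec_zero]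
    · intro v
      refine ⟨(P (i - (Fintype.card n : ℕ))).mulVec v, ?_⟩
      rw [Matrix.mulVec_mulVec, Matrix.mulVec_mulVec, hpow]
      congr 3
      ring

end Pool.Agent.Helper69K1.Gr
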