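import Pool.Agent.Helper69K1.Gr.Stm

/-!
# The embedding with a cyclic shift
-/

namespace Pool.Agent.Helper69K1.Gr.Em

open Module Pool.Agent.Helper69K1

section

variable {κ N : ℕ}

/-- `(shift by d) ⊗ X` -/
def sh (d : Fin (κ + 1)) (X : Matrix (Fin N) (Fin N) ℚ) :
    Matrix (Fin (κ + 1) × Fin N) (Fin (κ + 1) × Fin N) ℚ :=
  Matrix.of fun i j => if i.1 = j.1 + d then X i.2 j.2 else 0

lemma sh_apply (d : Fin (κ + 1)) (X : Matrix (Fin N) (Fin N) ℚ) (i j : Fin (κ + 1) × Fin N) :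
    sh d X i j = if i.1 = j.1 + d then X i.2 j.2 else 0 := rfl

lemma sh_mul (d d' : Fin (κ + 1)) (X Y : Matrix (Fin N) (Fin N) ℚ) :
    sh d X * sh d' Y = sh (d + d') (X * Y) := by
  ext ⟨i, a⟩ ⟨j, b⟩
  rw [Matrix.mul_apply, Fintype.sum_prod_type, Finset.sum_eq_single (j + d')]
  · simp only [sh_apply, if_true]
    rw [show j + d' + d = j + (d + d') by rw [add_assoc, add_comm d' d]]
    by_cases h : i = j + (d + d')
    · simp only [if_pos h, Matrix.mul_apply]
    · simp only [if_neg h, zero_mul, Finset.sum_const_zero]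
  · intro k _ hk
    apply Finset.sum_eq_zero
    intro c _
    simp only [sh_apply, if_neg hk, mul_zero]
  · intro h
    exact absurd (Finset.mem_univ _) h

lemma sh_one : sh (κ := κ) (N := N) 0 1 = 1 := by
  ext ⟨i, a⟩ ⟨j, b⟩
  rw [sh_apply, Matrix.one_apply, add_zero]
  by_cases h : i = j
  · subst h
    by_cases h2 : a = b
    · subst h2; simp
    · simp [h2]
  · simp [h]

lemma sh_sub (d : Fin (κ + 1)) (X Y : Matrix (Fin N) (Fin N) ℚ) :
    sh d (X - Y) = sh d X - sh d Y := by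
  ext i j
  simp only [sh_apply, Matrix.sub_apply]
  split_ifs <;> simp

lemma sh_det (X : Matrix (Fin N) (Fin N) ℚ) : (sh (κ := κ) 1 X).det ≠ 0 ↔ X.det ≠ 0 := by
  constructor
  · intro h hX
    obtain ⟨v, hv, hXv⟩ := Matrix.exists_mulVec_eq_zero_iff.2 hX
    have hu : IsUnit (sh (κ := κ) 1 X).det := isUnit_iff_ne_zero.2 h
    set Y : Matrix (Fin N) (Fin N) ℚ := Matrix.of fun a _ => v a with hY
    have h1 : X * Y = 0 := by
      ext a b
      rw [Matrix.mul_apply]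
      have := congrFun hXv a
      simpa [Matrix.mulVec, dotProduct, hY] using this
    have h2 : sh (κ := κ) 1 X * sh 0 Y = 0 := by
      rw [sh_mul, h1]
      ext i j
      simp [sh_apply]
    have h3 : sh (κ := κ) 0 Y = 0 := by
      have := congrArg (fun M => (sh (κ := κ) 1 X)⁻¹ * M) h2
      simpa [← Matrix.mul_assoc, Matrix.nonsing_inv_mul _ hu] using this
    apply hv
    funext a
    have := congrFun (congrFun h3 (0, a)) (0, a)
    simpa [sh_apply, hY] using this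
  · intro h
    have hu : IsUnit X.det := isUnit_iff_ne_zero.2 h
    have h1 : sh (κ := κ) 1 X * sh (-1) X⁻¹ = 1 := by
      rw [sh_mul, Matrix.mul_nonsing_inv _ hu, add_neg_cancel, sh_one]
    have h2 := congrArg Matrix.det h1
    rw [Matrix.det_mul, Matrix.det_one] at h2
    intro h0
    rw [h0, zero_mul] at h2
    exact zero_ne_one h2

/-- the embedding is the reindexed shift -/
lemma emb_eq (X : Matrix (Fin N) (Fin N) ℚ) :
    emb κ N X = Matrix.reindexAlgEquiv ℚ ℚ finProdFinEquiv (sh 1 X) := by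
  ext i j
  rfl

/-- the degree of `com h j` -/
def dd (κ j : ℕ) : Fin (κ + 1) := ((j + 1 : ℕ) : ZMod (κ + 1))

lemma dd_zero (κ : ℕ) : dd κ 0 = 1 := by
  show ((0 + 1 : ℕ) : ZMod (κ + 1)) = (1 : ZMod (κ + 1))
  rw [zero_add, Nat.cast_one]

lemma dd_succ (κ j : ℕ) : dd κ (j + 1) = 1 + dd κ j := by
  show ((j + 1 + 1 : ℕ) : ZMod (κ + 1)) = (1 : ZMod (κ + 1)) + ((j + 1 : ℕ) : ZMod (κ + 1))
  push_cast
  ring

lemma dd_last (κ : ℕ) : dd κ (κ + 1) = 1 := by
  show ((κ + 1 + 1 : ℕ) : ZMod (κ + 1)) = (1 : ZMod (κ + 1))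
  rw [Nat.cast_add, ZMod.natCast_self, zero_add, Nat.cast_one]

lemma com_emb (B : Submodule ℚ (Matrix (Fin N) (Fin N) ℚ)) (j : ℕ) :
    ∀ c ∈ com (B.map (emb κ N)) j, ∃ Z ∈ com B j,
      c = Matrix.reindexAlgEquiv ℚ ℚ finProdFinEquiv (sh (dd κ j) Z) := by
  induction j with
  | zero =>
    rintro c ⟨X, hX, rfl⟩
    exact ⟨X, hX, by rw [dd_zero]; exact emb_eq X⟩
  | succ j ih =>
    intro c hc
    refine Submodule.span_induction (p := fun c _ => ∃ Z ∈ com B (j + 1),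
      c = Matrix.reindexAlgEquiv ℚ ℚ finProdFinEquiv (sh (dd κ (j + 1)) Z)) ?_ ?_ ?_ ?_ hc
    · rintro c ⟨a, ⟨X, hX, rfl⟩, b, hb, rfl⟩
      obtain ⟨Z, hZ, rfl⟩ := ih b hb
      refine ⟨X * Z - Z * X, Submodule.subset_span ⟨X, hX, Z, hZ, rfl⟩, ?_⟩
      rw [emb_eq, ← map_mul, ← map_mul, ← map_sub, sh_mul, sh_mul, sh_sub]
      rw [dd_succ, add_comm (dd κ j) 1]
    · refine ⟨0, Submodule.zero_mem _, ?_⟩
      rw [show sh (dd κ (j + 1)) (0 : Matrix (Fin N) (Fin N) ℚ) = 0 by ext i j; simp [sh_apply], map_zero]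
    · rintro x y _ _ ⟨Z, hZ, rfl⟩ ⟨Z', hZ', rfl⟩
      refine ⟨Z + Z', Submodule.add_mem _ hZ hZ', ?_⟩
      rw [← map_add]
      congr 1
      ext i j
      simp only [sh_apply, Matrix.add_apply]
      split_ifs <;> simp
    · rintro r x _ ⟨Z, hZ, rfl⟩
      refine ⟨r • Z, Submodule.smul_mem _ _ hZ, ?_⟩
      rw [← map_smul]
      congr 1
      ext i j
      simp only [sh_apply, Matrix.smul_apply]
      split_ifs <;> simp

/-- the projection to the block `i` -/
def pj (κ N : ℕ) (i : Fin (κ + 1)) : Matrix (Fin (κ + 1) × Fin N) (Fin (κ + 1) × Fin N) ℚ :=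
  Matrix.diagonal fun a => if a.1 = i then 1 else 0

lemma pj_sum : ∑ i : Fin (κ + 1), pj κ N i = 1 := by
  ext a b
  rw [Matrix.sum_apply]
  by_cases h : a = b
  · subst h
    simp [pj]
  · simp [pj, Matrix.diagonal_apply_ne _ h, Matrix.one_apply_ne h]

lemma pj_self (i : Fin (κ + 1)) : pj κ N i * pj κ N i = pj κ N i := by
  unfold pj
  rw [Matrix.diagonal_mul_diagonal]
  congr 1
  funext a
  split_ifs <;> simp

lemma pj_ne (i j : Fin (κ + 1)) (h : i ≠ j) : pj κ N i * pj κ N j = 0 := by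
  unfold pj
  rw [Matrix.diagonal_mul_diagonal]
  have : (fun a : Fin (κ + 1) × Fin N => (if a.1 = i then (1 : ℚ) else 0) *
      (if a.1 = j then 1 else 0)) = 0 := by
    funext a
    by_cases h1 : a.1 = i
    · have h2 : ¬ a.1 = j := fun h2 => h (h1.symm.trans h2)
      rw [if_neg h2, mul_zero]
      rfl
    · rw [if_neg h1, zero_mul]
      rfl
  rw [this]
  exact Matrix.diagonal_zero

lemma sh_pj (X : Matrix (Fin N) (Fin N) ℚ) (i : Fin (κ + 1)) :
    sh 1 X * pj κ N i = pj κ N (i + 1) * sh 1 X := by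
  ext a b
  unfold pj
  rw [Matrix.mul_diagonal, Matrix.diagonal_mul, sh_apply]
  by_cases h : a.1 = b.1 + 1
  · rw [if_pos h]
    by_cases h2 : b.1 = i
    · have h3 : a.1 = i + 1 := by rw [h, h2]
      rw [if_pos h2, if_pos h3, mul_one, one_mul]
    · have h3 : ¬ a.1 = i + 1 := fun h3 => h2 (add_right_cancel (h.symm.trans h3))
      rw [if_neg h2, if_neg h3, mul_zero, zero_mul]
  · rw [if_neg h, zero_mul, mul_zero]

/-- the projections inside the big matrix algebra. -/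
def PP (κ N : ℕ) (i : Fin (κ + 1)) : Matrix (Fin ((κ + 1) * N)) (Fin ((κ + 1) * N)) ℚ :=
  Matrix.reindexAlgEquiv ℚ ℚ finProdFinEquiv (pj κ N i)

lemma PP_sum : ∑ i : Fin (κ + 1), PP κ N i = 1 := by
  unfold PP
  rw [← map_sum, pj_sum, map_one]

lemma PP_self (i : Fin (κ + 1)) : PP κ N i * PP κ N i = PP κ N i := by
  unfold PP
  rw [← map_mul, pj_self]

lemma PP_ne (i j : Fin (κ + 1)) (h : i ≠ j) : PP κ N i * PP κ N j = 0 := by
  unfold PP
  rw [← map_mul, pj_ne i j h, map_zero]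

lemma PP_emb (X : Matrix (Fin N) (Fin N) ℚ) (i : Fin (κ + 1)) :
    emb κ N X * PP κ N i = PP κ N (i + 1) * emb κ N X := by
  unfold PP
  rw [emb_eq, ← map_mul, ← map_mul]
  congr 1
  exact sh_pj X i

end

theorem t_EMB : S_EMB := by
  intro κ N
  refine ⟨fun X => ?_, fun B hB => ?_, fun i => PP κ N i, ?_, ?_, ?_⟩
  · rw [emb_eq, Matrix.det_reindexAlgEquiv]
    exact sh_det X
  · intro c hc
    obtain ⟨Z, hZ, rfl⟩ := com_emb B (κ + 1) c hc
    rw [dd_last, ← emb_eq]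
    exact ⟨Z, hB hZ, rfl⟩
  · exact PP_sum (κ := κ) (N := N)
  · intro i j
    by_cases h : i = j
    · subst h
      rw [if_pos rfl]
      exact PP_self (κ := κ) (N := N) i
    · rw [if_neg h]
      exact PP_ne (κ := κ) (N := N) i j h
  · intro X i
    exact PP_emb (κ := κ) (N := N) X i

end Pool.Agent.Helper69K1.Gr.Em
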