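import Pool.Agent.Helper69K1.Gr.Test

/-!
# The test on symbolic matrices
-/

set_option linter.unusedSectionVars false

namespace Pool.Agent.Helper69K1.Gr

open Module Pool.Agent.NPC Pool.Agent.NPC.H532 Pool.Agent.H420_NCF Pool.Agent.H687R2.LLL
open Pool.Agent.Helper69K1

theorem testG_sound' {m : ℕ} {un : List Unit} (hm : un.length = m) {Bs : List Mat}
    (h : testG (un, Bs) = true) : ∃ c, (cq m Bs c).det ≠ 0 := by
  subst hm
  exact testG_sound h

theorem testG_complete' (hG : S_G) {m : ℕ} {un : List Unit} (hm : un.length = m) {Bs : List Mat}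
    (κ : ℕ) (P : ZMod (κ + 1) → Matrix (Fin m) (Fin m) ℚ) (hP1 : ∑ i, P i = 1)
    (hP2 : ∀ i j, P i * P j = if i = j then P i else 0)
    (hP3 : ∀ X ∈ spB m Bs, ∀ i, X * P i = P (i + 1) * X)
    (hB : com (spB m Bs) (κ + 1) ≤ spB m Bs)
    (h : ∃ c, (cq m Bs c).det ≠ 0) : testG (un, Bs) = true := by
  subst hm
  exact testG_complete hG κ P hP1 hP2 hP3 hB h

theorem spB_embM (κ N : ℕ) (Bs : List Mat) :
    spB ((κ + 1) * N) (Bs.map fun B => embM κ N B) = (spB N Bs).map (emb κ N) := by
  rw [spB, spB, Submodule.map_span]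
  congr 1
  ext M
  constructor
  · rintro ⟨_, hB', rfl⟩
    obtain ⟨B, hB, rfl⟩ := List.mem_map.1 hB'
    exact ⟨mq N B, ⟨B, hB, rfl⟩, (mq_embM κ N B).symm⟩
  · rintro ⟨_, ⟨B, hB, rfl⟩, rfl⟩
    exact ⟨_, List.mem_map.2 ⟨B, hB, rfl⟩, (mq_embM κ N B).symm⟩

theorem testE_sound (hE : S_EMB) {I : Inp} {ku : List Unit} (h : testG (embI (I, ku)) = true) :
    ∃ c, (cq I.1.length I.2 c).det ≠ 0 := by
  obtain ⟨c, hc⟩ := testG_sound' (m := (ku.length + 1) * I.1.length)
    (un := List.replicate ((ku.length + 1) * I.1.length) ()) (by simp) h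
  have h1 : cq ((ku.length + 1) * I.1.length) (I.2.map fun B => embM ku.length I.1.length B) c ∈
      (spB I.1.length I.2).map (emb ku.length I.1.length) := by
    rw [← spB_embM]
    exact cq_mem_spB _ _ _
  obtain ⟨X, hX, h2⟩ := h1
  rw [← h2] at hc
  obtain ⟨d, rfl⟩ := mem_spB.1 hX
  exact ⟨d, ((hE ku.length I.1.length).1 _).1 hc⟩

theorem testE_complete (hG : S_G) (hE : S_EMB) {I : Inp} {ku : List Unit}
    (hB : com (spB I.1.length I.2) (ku.length + 1) ≤ spB I.1.length I.2)
    (h : ∃ c, (cq I.1.length I.2 c).det ≠ 0) : testG (embI (I, ku)) = true := by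
  obtain ⟨h1, h2, P, hP1, hP2, hP3⟩ := hE ku.length I.1.length
  refine testG_complete' hG (m := (ku.length + 1) * I.1.length)
    (un := List.replicate ((ku.length + 1) * I.1.length) ()) (by simp) ku.length P hP1 hP2
    ?_ ?_ ?_
  · rw [spB_embM]
    rintro _ ⟨X, -, rfl⟩ i
    exact hP3 X i
  · rw [spB_embM]
    exact h2 _ hB
  · obtain ⟨c, hc⟩ := h
    have h3 : emb ku.length I.1.length (cq I.1.length I.2 c) ∈
        spB ((ku.length + 1) * I.1.length) (I.2.map fun B => embM ku.length I.1.length B) := by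
      rw [spB_embM]
      exact ⟨_, cq_mem_spB _ _ _, rfl⟩
    obtain ⟨d, hd⟩ := mem_spB.1 h3
    refine ⟨d, ?_⟩
    rw [← hd]
    exact (h1 _).2 hc

/-- The number `κ` in unary, for `κ ≤ b`. -/
def una (b κ : ℕ) : List Unit := ((List.range b).filter fun j => decide (j < κ)).map fun _ => ()

theorem length_una {b κ : ℕ} (h : κ ≤ b) : (una b κ).length = κ := by
  rw [una, List.length_map]
  have : ∀ b, κ ≤ b → ((List.range b).filter fun j => decide (j < κ)).length = κ := by
    intro b hb
    induction b, hb using Nat.le_induction with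
    | base =>
        rw [List.filter_eq_self.2 (fun j hj => by simpa using hj), List.length_range]
    | succ b hb ih =>
        rw [List.range_succ, List.filter_append, List.length_append, ih]
        simp [not_lt.2 hb]
  exact this b h

/-- The test on symbolic matrices. -/
noncomputable def symG (C : ℕ) (A : SMat) : Bool :=
  (A.all fun r => decide (r.length = A.length)) &&
    (List.range ((A.length + 2) ^ C)).any fun κ => testG (embI (inp A, una ((A.length + 2) ^ C) κ))

theorem poly_symG (C : ℕ) : Poly (symG C) := by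
  unfold symG
  have hN : UPoly (fun A : SMat => A.length + 2) := (UPoly.length Poly.id).add (UPoly.const 2)
  have hN2 : UPoly (fun A : SMat => (A.length + 2) ^ C) := by
    induction C with
    | zero => simpa using UPoly.const 1
    | succ C ih => simpa only [pow_succ] using ih.mul hN
  refine Poly.and (poly_isSquare Poly.id) (Poly.any (p := fun (A : SMat) κ =>
    testG (embI (inp A, una ((A.length + 2) ^ C) κ))) hN2.range ?_)
  refine poly_testG.comp (poly_embI.comp (Poly.pair (poly_inp (Poly.fst Poly.id)) ?_))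
  unfold una
  refine NPC.Poly.map (α := SMat × ℕ) (F := fun _ (_ : ℕ) => ()) (Poly.filter
    (p := fun (q : SMat × ℕ) j => decide (j < q.2)) (hN2.comp (Poly.fst Poly.id)).range ?_)
    (NPC.Poly.const ())
  exact Poly.decide_lt (Poly.snd Poly.id) (Poly.snd (Poly.fst Poly.id))

theorem symG_sound (hE : S_EMB) {C : ℕ} {A : SMat} (h : symG C A = true) :
    IsSquare A ∧ (symMat A).det ≠ 0 := by
  rw [symG, Bool.and_eq_true, List.any_eq_true] at h
  obtain ⟨h1, κ, -, h2⟩ := h
  exact ⟨(isSquare_iff A).1 h1, cast_det (testE_sound hE h2)⟩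

theorem symG_complete (hG : S_G) (hE : S_EMB) {C : ℕ} {A : SMat} (hs : IsSquare A) {κ : ℕ}
    (hκ : κ < (A.length + 2) ^ C)
    (hB : com (spB A.length (coeffs A)) (κ + 1) ≤ spB A.length (coeffs A))
    (h : (symMat A).det ≠ 0) : symG C A = true := by
  rw [symG, Bool.and_eq_true, List.any_eq_true]
  refine ⟨(isSquare_iff A).2 hs, κ, List.mem_range.2 hκ, ?_⟩
  refine testE_complete hG hE ?_ (det_cast h)
  rw [length_una hκ.le, length_inp]
  exact hB

end Pool.Agent.Helper69K1.Gr
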