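import Pool.Agent.Helper69K1.Gr.Stm

/-!
# Piece GR: the grading of the quotient
-/

namespace Pool.Agent.Helper69K1.Gr

open Module Pool.Agent.Helper69K1

section

variable {n : Type} [Fintype n] [DecidableEq n] {κ : ℕ} (P : ZMod (κ + 1) → Matrix n n ℚ)

/-- The part of degree `j` of a matrix. -/
noncomputable def pj (j : ZMod (κ + 1)) : Matrix n n ℚ →ₗ[ℚ] Matrix n n ℚ :=
  ∑ c, (LinearMap.mulLeft ℚ (P (c + j))).comp (LinearMap.mulRight ℚ (P c))

theorem pj_apply (j : ZMod (κ + 1)) (a : Matrix n n ℚ) :
    pj P j a = ∑ c, P (c + j) * (a * P c) := by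
  simp [pj, LinearMap.sum_apply]

variable (h1 : ∑ i, P i = 1) (h2 : ∀ i j, P i * P j = if i = j then P i else 0)

include h2 in
theorem pj_pj (i j : ZMod (κ + 1)) (a : Matrix n n ℚ) :
    pj P i (pj P j a) = if i = j then pj P j a else 0 := by
  rw [pj_apply P i]
  have : ∀ c, P (c + i) * (pj P j a * P c) = if i = j then P (c + j) * (a * P c) else 0 := by
    intro c
    rw [pj_apply, Finset.sum_mul, Finset.mul_sum, Finset.sum_eq_single c]
    · calc P (c + i) * (P (c + j) * (a * P c) * P c)
          = (P (c + i) * P (c + j)) * (a * (P c * P c)) := by simp only [mul_assoc]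
        _ = _ := by
          rw [h2, h2]
          by_cases hij : i = j
          · simp [hij]
          · rw [if_neg hij, if_neg (fun h => hij (add_left_cancel h))]
            simp
    · intro b _ hb
      rw [mul_assoc, mul_assoc, h2, if_neg hb]
      simp
    · simp
  rw [Finset.sum_congr rfl fun c _ => this c]
  by_cases hij : i = j
  · simp only [if_pos hij, pj_apply]
  · simp [hij]

include h1 h2 in
theorem pj_mul (j : ZMod (κ + 1)) (a b : Matrix n n ℚ) :
    pj P j (a * b) = ∑ i, pj P (j - i) a * pj P i b := by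
  have : ∀ i, pj P (j - i) a * pj P i b = ∑ c, P (c + j) * (a * (P (c + i) * (b * P c))) := by
    intro i
    rw [pj_apply P i, Finset.mul_sum]
    refine Finset.sum_congr rfl fun c _ => ?_
    rw [pj_apply, Finset.sum_mul, Finset.sum_eq_single (c + i)]
    · rw [show c + i + (j - i) = c + j by abel]
      calc P (c + j) * (a * P (c + i)) * (P (c + i) * (b * P c))
          = P (c + j) * (a * ((P (c + i) * P (c + i)) * (b * P c))) := by simp only [mul_assoc]
        _ = _ := by rw [h2, if_pos rfl]
    · intro d _ hd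
      calc P (d + (j - i)) * (a * P d) * (P (c + i) * (b * P c))
          = P (d + (j - i)) * (a * ((P d * P (c + i)) * (b * P c))) := by simp only [mul_assoc]
        _ = 0 := by rw [h2, if_neg hd]; simp
    · simp
  rw [Finset.sum_congr rfl fun i _ => this i, Finset.sum_comm, pj_apply]
  refine Finset.sum_congr rfl fun c _ => ?_
  rw [← Finset.mul_sum, ← Finset.mul_sum, ← Finset.sum_mul]
  have hs : ∑ i, P (c + i) = 1 := by
    rw [← h1]
    exact Fintype.sum_equiv (Equiv.addLeft c) _ _ fun i => rfl
  rw [hs, one_mul, mul_assoc]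

include h1 h2 in
theorem pj_one (j : ZMod (κ + 1)) : pj P j 1 = if j = 0 then 1 else 0 := by
  rw [pj_apply]
  have : ∀ c, P (c + j) * (1 * P c) = if j = 0 then P c else 0 := by
    intro c
    rw [one_mul, h2]
    by_cases hj : j = 0
    · simp [hj]
    · rw [if_neg hj, if_neg (fun h => hj (by simpa using h))]
  rw [Finset.sum_congr rfl fun c _ => this c]
  by_cases hj : j = 0
  · simp [hj, h1]
  · simp [hj]

include h1 h2 in
theorem pj_hom {X : Matrix n n ℚ} (hX : ∀ i, X * P i = P (i + 1) * X) (j : ZMod (κ + 1)) :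
    pj P j X = if j = 1 then X else 0 := by
  rw [pj_apply]
  have : ∀ c, P (c + j) * (X * P c) = if j = 1 then P (c + 1) * X else 0 := by
    intro c
    rw [hX, ← mul_assoc, h2]
    by_cases hj : j = 1
    · simp [hj]
    · rw [if_neg hj, if_neg (fun h => hj (add_left_cancel h)), zero_mul]
  rw [Finset.sum_congr rfl fun c _ => this c]
  by_cases hj : j = 1
  · simp only [if_pos hj]
    rw [← Finset.sum_mul]
    have hs : ∑ i, P (i + 1) = 1 := by
      rw [← h1]
      exact Fintype.sum_equiv (Equiv.addRight 1) _ _ fun i => rfl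
    rw [hs, one_mul]
  · simp [hj]

/-- The parts of the elements of the algebra are in the algebra. -/
theorem pj_mem (h1 : ∑ i, P i = 1) (h2 : ∀ i j, P i * P j = if i = j then P i else 0)
    (h : Submodule ℚ (Matrix n n ℚ)) (hh : ∀ X ∈ h, ∀ i, X * P i = P (i + 1) * X)
    (a : Matrix n n ℚ) (ha : a ∈ Algebra.adjoin ℚ (h : Set (Matrix n n ℚ))) :
    ∀ j, pj P j a ∈ Algebra.adjoin ℚ (h : Set (Matrix n n ℚ)) := by
  induction ha using Algebra.adjoin_induction with
  | mem x hx =>
    intro j
    rw [pj_hom P h1 h2 (hh x hx)]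
    split_ifs
    · exact Algebra.subset_adjoin hx
    · exact zero_mem _
  | algebraMap r =>
    intro j
    rw [Algebra.algebraMap_eq_smul_one, map_smul, pj_one P h1 h2]
    split_ifs
    · exact Subalgebra.smul_mem _ (one_mem _) _
    · simp
  | add x y _ _ hx hy =>
    intro j
    rw [map_add]
    exact add_mem (hx j) (hy j)
  | mul x y _ _ hx hy =>
    intro j
    rw [pj_mul P h1 h2]
    exact sum_mem fun i _ => mul_mem (hx _) (hy _)

theorem tr_pj (e a b : Matrix n n ℚ) (he : ∀ i, e * P i = P i * e) (j : ZMod (κ + 1)) :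
    (e * (pj P j a * b)).trace = (e * (a * pj P (-j) b)).trace := by
  rw [pj_apply, pj_apply, Finset.sum_mul, Finset.mul_sum, Finset.mul_sum, Finset.mul_sum,
    Matrix.trace_sum, Matrix.trace_sum]
  refine Fintype.sum_equiv (Equiv.addRight j) _ _ fun c => ?_
  simp only [Equiv.coe_addRight]
  rw [show c + j + -j = c by abel]
  calc (e * (P (c + j) * (a * P c) * b)).trace
      = (P (c + j) * (e * (a * (P c * b)))).trace := by
        congr 1
        calc e * (P (c + j) * (a * P c) * b) = (e * P (c + j)) * (a * (P c * b)) := by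
              simp only [mul_assoc]
          _ = _ := by rw [he]; simp only [mul_assoc]
    _ = ((e * (a * (P c * b))) * P (c + j)).trace := Matrix.trace_mul_comm _ _
    _ = _ := by congr 1; simp only [mul_assoc]

end

theorem t_GR : S_GR := by
  intro n _ _ κ P h1 h2 h hh A hA e _ _ _ heP S _ _ τ q hq hτ hτq
  have hmem : ∀ (a : A) (j : ZMod (κ + 1)), pj P j (a : Matrix n n ℚ) ∈ A := by
    intro a j
    have := pj_mem P h1 h2 h hh (a : Matrix n n ℚ) (hA ▸ a.2) j
    exact hA.symm ▸ this
  let pA : ZMod (κ + 1) → A →ₗ[ℚ] A := fun j =>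
    ((pj P j).comp A.val.toLinearMap).codRestrict (Subalgebra.toSubmodule A) fun a => hmem a j
  have hpA : ∀ j (a : A), ((pA j a : A) : Matrix n n ℚ) = pj P j (a : Matrix n n ℚ) := fun j a => rfl
  -- the kernel is stable
  have hker : ∀ (j : ZMod (κ + 1)) (a : A), q a = 0 → q (pA j a) = 0 := by
    intro j a ha
    refine hτ.nondeg _ fun s => ?_
    obtain ⟨b, rfl⟩ := hq s
    rw [← map_mul, hτq]
    have := tr_pj P e (a : Matrix n n ℚ) (b : Matrix n n ℚ) heP j
    rw [show ((pA j a * b : A) : Matrix n n ℚ) = pj P j (a : Matrix n n ℚ) * (b : Matrix n n ℚ) from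
      rfl, this]
    have h3 : (a : Matrix n n ℚ) * pj P (-j) (b : Matrix n n ℚ) =
        ((a * pA (-j) b : A) : Matrix n n ℚ) := rfl
    rw [h3, ← hτq, map_mul, ha, zero_mul, map_zero]
  obtain ⟨σ, hσ⟩ := LinearMap.exists_rightInverse_of_surjective q.toLinearMap
    (LinearMap.range_eq_top.2 hq)
  have hσ' : ∀ s, q (σ s) = s := fun s => by
    have := congrArg (fun f => f s) hσ
    simpa using this
  have hpr : ∀ j (a : A), q (pA j (σ (q a))) = q (pA j a) := by
    intro j a
    rw [← sub_eq_zero, ← map_sub, ← map_sub]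
    apply hker
    rw [map_sub, hσ', sub_self]
  refine ⟨⟨fun d => (LinearMap.ker (pA d - LinearMap.id)).map q.toLinearMap,
    fun j => q.toLinearMap.comp ((pA j).comp σ), ?_, ?_, ?_⟩⟩
  · rintro i j _ ⟨a, ha, rfl⟩ _ ⟨b, hb, rfl⟩
    have ha' : pj P i (a : Matrix n n ℚ) = a := by
      have : pA i a = a := by
        have := LinearMap.mem_ker.1 ha
        simpa [sub_eq_zero] using this
      exact congrArg Subtype.val this
    have hb' : pj P j (b : Matrix n n ℚ) = b := by
      have : pA j b = b := by
        have := LinearMap.mem_ker.1 hb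
        simpa [sub_eq_zero] using this
      exact congrArg Subtype.val this
    refine ⟨a * b, ?_, ?_⟩
    · refine LinearMap.mem_ker.2 ?_
      rw [LinearMap.sub_apply, LinearMap.id_apply, sub_eq_zero]
      apply Subtype.ext
      rw [hpA]
      change pj P (i + j) ((a : Matrix n n ℚ) * (b : Matrix n n ℚ)) = _
      rw [pj_mul P h1 h2, Finset.sum_eq_single j]
      · rw [show i + j - j = i by abel, ha', hb']
        rfl
      · intro k _ hk
        rw [← hb', pj_pj P h2, if_neg hk, mul_zero]
      · simp
    · change q (a * b) = q a * q b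
      exact map_mul q a b
  · rintro _ ⟨a, ha, rfl⟩
    refine ⟨a, ?_, rfl⟩
    refine LinearMap.mem_ker.2 ?_
    rw [LinearMap.sub_apply, LinearMap.id_apply, sub_eq_zero]
    apply Subtype.ext
    rw [hpA, pj_hom P h1 h2 (X := (a : Matrix n n ℚ)) (hh _ ha), if_pos rfl]
  · rintro i _ ⟨a, ha, rfl⟩ j
    have ha' : pA i a = a := by
      have := LinearMap.mem_ker.1 ha
      simpa [sub_eq_zero] using this
    change q (pA j (σ (q a))) = if j = i then q a else 0
    rw [hpr]
    have : pA j a = if j = i then a else 0 := by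
      apply Subtype.ext
      rw [hpA]
      conv_lhs => rw [← ha', hpA, pj_pj P h2]
      by_cases hji : j = i
      · rw [if_pos hji, if_pos hji, ← hpA, ha']
      · rw [if_neg hji, if_neg hji]
        rfl
    rw [this]
    split_ifs
    · rfl
    · exact map_zero q

end Pool.Agent.Helper69K1.Gr
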