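import Pool.Agent.Helper69K1.Gr.Rk

/-!
# The inner search
-/

set_option linter.unusedSectionVars false

namespace Pool.Agent.Helper69K1.Gr

open Module Pool.Agent.NPC Pool.Agent.NPC.H532 Pool.Agent.H420_NCF Pool.Agent.H687R2.LLL
open Pool.Agent.Helper69K1

variable {α : Type} [TEnc α]

/-- The input of the inner search: the space, a basis of the algebra, the directions. -/
abbrev Ctx : Type := Inp × (List Mat × List (List ℤ))

/-- The potential. -/
noncomputable def pot (C : Ctx) (c : List ℤ) : ℕ := rho C.1.1.length C.2.1 (cmb C.1.1.length C.1.2 c)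

theorem poly_pot {C : α → Ctx} {c : α → List ℤ} (hC : Poly C) (hc : Poly c) :
    Poly (fun a => pot (C a) (c a)) :=
  poly_rho (UPoly.length (Poly.fst (Poly.fst hC))) (Poly.fst (Poly.snd hC))
    (poly_cmb (UPoly.length (Poly.fst (Poly.fst hC))) (Poly.snd (Poly.fst hC)) hc)

/-- The points near `c`. -/
def cands (T : ℕ) (D : List (List ℤ)) (c : List ℤ) : List (List ℤ) :=
  D.flatMap fun u => (List.range T).map fun t => addv c u t

theorem poly_cands {T : α → ℕ} {D : α → List (List ℤ)} {c : α → List ℤ} (hT : UPoly T)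
    (hD : Poly D) (hc : Poly c) : Poly (fun a => cands (T a) (D a) (c a)) := by
  unfold cands
  refine Poly.flatMap (F := fun a u => (List.range (T a)).map fun t => addv (c a) u t) hD ?_
  refine NPC.Poly.map (α := α × List ℤ) (l := fun p => List.range (T p.1))
    (F := fun p t => addv (c p.1) p.2 t) (hT.comp (Poly.fst Poly.id)).range ?_
  exact poly_addv (hc.comp (Poly.fst (Poly.fst Poly.id))) (Poly.snd (Poly.fst Poly.id))
    (Poly.snd Poly.id)

/-- The number of points on a line. -/
def TT (N : ℕ) : ℕ := 2 * (N * N) + 4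

theorem upoly_TT {N : α → ℕ} (hN : UPoly N) : UPoly (fun a => TT (N a)) := by
  unfold TT
  exact ((UPoly.const 2).mul (hN.mul hN)).add (UPoly.const 4)

/-- One step. -/
noncomputable def istep (C : Ctx) (c : List ℤ) : List ℤ :=
  (((cands (TT C.1.1.length) C.2.2 c).filter fun c' => decide (pot C c < pot C c')).head?).getD c

theorem poly_istep : Poly (fun p : Ctx × List ℤ => istep p.1 p.2) := by
  unfold istep
  refine Poly.optGetD (Poly.head? (Poly.filter (p := fun (p : Ctx × List ℤ) c' =>
    decide (pot p.1 p.2 < pot p.1 c')) ?_ ?_)) (Poly.snd Poly.id)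
  · exact poly_cands (upoly_TT (UPoly.length (Poly.fst (Poly.fst (Poly.fst Poly.id)))))
      (Poly.snd (Poly.snd (Poly.fst Poly.id))) (Poly.snd Poly.id)
  · exact Poly.decide_lt (poly_pot (Poly.fst (Poly.fst Poly.id)) (Poly.snd (Poly.fst Poly.id)))
      (poly_pot (Poly.fst (Poly.fst Poly.id)) (Poly.snd Poly.id))

theorem istep_cases (C : Ctx) (c : List ℤ) :
    (istep C c = c ∧ ∀ c' ∈ cands (TT C.1.1.length) C.2.2 c, pot C c' ≤ pot C c) ∨
    (istep C c ∈ cands (TT C.1.1.length) C.2.2 c ∧ pot C c < pot C (istep C c)) := by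
  unfold istep
  cases h : ((cands (TT C.1.1.length) C.2.2 c).filter fun c' =>
    decide (pot C c < pot C c')).head? with
  | none =>
      left
      refine ⟨rfl, fun c' hc' => ?_⟩
      rw [List.head?_eq_none_iff, List.filter_eq_nil_iff] at h
      have := h c' hc'
      simp only [decide_eq_true_eq, not_lt] at this
      exact this
  | some c' =>
      right
      have h1 := List.mem_of_mem_head? h
      rw [List.mem_filter] at h1
      exact ⟨h1.1, by simpa using h1.2⟩

/-- The inner search. -/
noncomputable def inner (C : Ctx) : List ℤ :=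
  (istep C)^[C.1.1.length * C.1.1.length + 1] (List.replicate C.1.2.length 0)

theorem mem_cands {T : ℕ} {D : List (List ℤ)} {c c' : List ℤ} :
    c' ∈ cands T D c ↔ ∃ u ∈ D, ∃ t < T, c' = addv c u t := by
  unfold cands
  simp only [List.mem_flatMap, List.mem_map, List.mem_range]
  constructor
  · rintro ⟨u, hu, t, ht, rfl⟩
    exact ⟨u, hu, t, ht, rfl⟩
  · rintro ⟨u, hu, t, ht, rfl⟩
    exact ⟨u, hu, t, ht, rfl⟩

theorem inner_ind (C : Ctx) (K : ℕ) (p : ℕ → List ℤ → Prop)
    (h0 : p 0 (List.replicate C.1.2.length 0)) (hmono : ∀ k c, p k c → p (k + 1) c)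
    (hs : ∀ k c, p k c → ∀ u ∈ C.2.2, ∀ t < TT C.1.1.length, p (k + 1) (addv c u t)) :
    p K ((istep C)^[K] (List.replicate C.1.2.length 0)) := by
  induction K with
  | zero => exact h0
  | succ K ih =>
      rw [Function.iterate_succ_apply']
      rcases istep_cases C ((istep C)^[K] (List.replicate C.1.2.length 0)) with ⟨h, -⟩ | ⟨h, -⟩
      · rw [h]; exact hmono _ _ ih
      · obtain ⟨u, hu, t, ht, h2⟩ := mem_cands.1 h
        rw [h2]
        exact hs _ _ ih u hu t ht

theorem length_addv (c u : List ℤ) (t : ℕ) : (addv c u t).length = c.length := by simp [addv]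

theorem inner_iter_length (C : Ctx) (K : ℕ) :
    ((istep C)^[K] (List.replicate C.1.2.length 0)).length = C.1.2.length :=
  inner_ind C K (fun _ c => c.length = C.1.2.length) (by simp) (fun _ _ h => h)
    (fun _ c h u _ t _ => by rw [length_addv]; exact h)

theorem inner_iter_bound (C : Ctx) (K : ℕ) :
    ∀ x ∈ (istep C)^[K] (List.replicate C.1.2.length 0),
      x.natAbs ≤ K * (TT C.1.1.length * 2 ^ sz C.2.2) := by
  refine inner_ind C K (fun k c => ∀ x ∈ c, x.natAbs ≤ k * (TT C.1.1.length * 2 ^ sz C.2.2))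
    ?_ ?_ ?_
  · intro x hx
    rw [List.eq_of_mem_replicate hx]
    simp
  · intro k c h x hx
    exact (h x hx).trans (Nat.mul_le_mul_right _ (Nat.le_succ _))
  · intro k c h u hu t ht x hx
    rw [addv, List.mem_map] at hx
    obtain ⟨j, hj, rfl⟩ := hx
    have h1 : (c.getD j 0).natAbs ≤ k * (TT C.1.1.length * 2 ^ sz C.2.2) := by
      rw [List.getD_eq_getElem _ _ (List.mem_range.1 hj)]
      exact h _ (List.getElem_mem _)
    have h2 : (u.getD j 0).natAbs ≤ 2 ^ sz C.2.2 := by
      by_cases hju : j < u.length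
      · rw [List.getD_eq_getElem _ _ hju]
        have h3 := natAbs_lt_of_mem (List.getElem_mem hju)
        have h4 := sz_le_of_mem hu
        exact h3.le.trans (Nat.pow_le_pow_right (by norm_num) h4.le)
      · rw [List.getD_eq_default _ _ (not_lt.1 hju)]
        simp
    have h5 := Int.natAbs_add_le (c.getD j 0) ((t : ℤ) * u.getD j 0)
    rw [Int.natAbs_mul, Int.natAbs_natCast] at h5
    have h6 : t * (u.getD j 0).natAbs ≤ TT C.1.1.length * 2 ^ sz C.2.2 :=
      Nat.mul_le_mul ht.le h2
    rw [add_mul, one_mul]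
    omega

theorem poly_inner : Poly inner := by
  unfold inner
  have hN : UPoly (fun C : Ctx => C.1.1.length) := UPoly.length (Poly.fst (Poly.fst Poly.id))
  have hK : UPoly (fun C : Ctx => C.1.1.length * C.1.1.length + 1) :=
    (hN.mul hN).add (UPoly.const 1)
  have hrep : Poly (fun C : Ctx => List.replicate C.1.2.length (0 : ℤ)) := by
    refine (NPC.Poly.map (F := fun (_ : Ctx) (_ : Mat) => (0 : ℤ))
      (Poly.snd (Poly.fst Poly.id)) (NPC.Poly.const 0)).congr fun C => ?_
    rw [List.map_const']
  refine (Poly.iterLen (l := fun C : Ctx => List.replicate (C.1.1.length * C.1.1.length + 1) ())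
    (F := fun C c => istep C c) hK hrep poly_istep
    (Polynomial.X * (Polynomial.C 4 * (Polynomial.C 4 * (Polynomial.X * Polynomial.X) +
      Polynomial.X + Polynomial.C 6) + Polynomial.C 6) + Polynomial.C 1) ?_).congr fun C => by
      rw [List.length_replicate]
  intro C k hk
  rw [List.length_replicate] at hk
  have h0 : sz C = sz C.1 + sz C.2 + 1 := sz_pair _ _
  have h1 : sz C.1 = sz C.1.1 + sz C.1.2 + 1 := sz_pair _ _
  have h2 : sz C.2 = sz C.2.1 + sz C.2.2 + 1 := sz_pair _ _
  have h3 := length_lt_sz C.1.1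
  have h4 := length_lt_sz C.1.2
  set N := C.1.1.length with hNd
  have hNN : N * N ≤ sz C * sz C := Nat.mul_le_mul (by omega) (by omega)
  have h5 : ∀ x ∈ (istep C)^[k] (List.replicate C.1.2.length 0),
      x.natAbs < 2 ^ (4 * (sz C * sz C) + sz C + 6) := by
    intro x hx
    have h6 := inner_iter_bound C k x hx
    have h7 : k < 2 ^ (N * N + 1) := lt_of_le_of_lt hk Nat.lt_two_pow_self
    have h8 : TT N < 2 ^ (2 * (N * N) + 4) := Nat.lt_two_pow_self
    have h9 : k * (TT N * 2 ^ sz C.2.2) ≤ 2 ^ (N * N + 1) * (2 ^ (2 * (N * N) + 4) *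
        2 ^ sz C.2.2) := Nat.mul_le_mul h7.le (Nat.mul_le_mul_right _ h8.le)
    rw [← pow_add, ← pow_add] at h9
    refine lt_of_le_of_lt (h6.trans h9) (Nat.pow_lt_pow_right (by norm_num) ?_)
    omega
  refine (Pool.Agent.NPC.H670R2.sz_vec_le (b := sz C) (by rw [inner_iter_length]; omega)
    h5).trans ?_
  simp only [Polynomial.eval_add, Polynomial.eval_mul, Polynomial.eval_C, Polynomial.eval_X]
  exact le_rfl

theorem inner_length (C : Ctx) : (inner C).length = C.1.2.length := inner_iter_length C _

/-- The end of the inner search is stuck. -/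
theorem inner_stuck (C : Ctx) :
    ∀ u ∈ C.2.2, ∀ t < TT C.1.1.length, pot C (addv (inner C) u t) ≤ pot C (inner C) := by
  have key : ∀ K : ℕ, (∀ c' ∈ cands (TT C.1.1.length) C.2.2
      ((istep C)^[K] (List.replicate C.1.2.length 0)),
      pot C c' ≤ pot C ((istep C)^[K] (List.replicate C.1.2.length 0))) ∨
      K ≤ pot C ((istep C)^[K] (List.replicate C.1.2.length 0)) := by
    intro K
    induction K with
    | zero => right; exact Nat.zero_le _
    | succ K ih =>
        rw [Function.iterate_succ_apply']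
        set c := (istep C)^[K] (List.replicate C.1.2.length 0) with hc
        rcases istep_cases C c with ⟨h1, h2⟩ | ⟨h1, h2⟩
        · left
          rw [h1]
          exact h2
        · rcases ih with h3 | h3
          · have := h3 _ h1
            omega
          · right
            omega
  intro u hu t ht
  rcases key (C.1.1.length * C.1.1.length + 1) with h | h
  · exact h _ (mem_cands.2 ⟨u, hu, t, ht, rfl⟩)
  · exfalso
    have := rho_le C.1.1.length C.2.1 (cmb C.1.1.length C.1.2
      ((istep C)^[C.1.1.length * C.1.1.length + 1] (List.replicate C.1.2.length 0)))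
    unfold pot at h
    omega

/-- The end of the inner search is a combination of the directions. -/
theorem inner_mem (C : Ctx) (W : Submodule ℚ (Matrix (Fin C.1.1.length) (Fin C.1.1.length) ℚ))
    (hW : ∀ u ∈ C.2.2, cq C.1.1.length C.1.2 (qv u) ∈ W) :
    cq C.1.1.length C.1.2 (qv (inner C)) ∈ W := by
  have h := inner_ind C (C.1.1.length * C.1.1.length + 1)
    (fun _ c => c.length = C.1.2.length ∧ cq C.1.1.length C.1.2 (qv c) ∈ W) ?_
    (fun _ _ h => h) ?_
  · exact h.2
  · refine ⟨by simp, ?_⟩
    have e : cq C.1.1.length C.1.2 (qv (List.replicate C.1.2.length 0)) = 0 := by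
      rw [cq]
      refine Finset.sum_eq_zero fun k hk => ?_
      have : qv (List.replicate C.1.2.length 0) k = 0 := by
        rw [qv]
        simp
      rw [this, zero_smul]
    rw [e]
    exact W.zero_mem
  · rintro k c ⟨h1, h2⟩ u hu t _
    refine ⟨by rw [length_addv]; exact h1, ?_⟩
    have h3 := cq_addv (N := C.1.1.length) (Bs := C.1.2) (c := c) (by omega) u t 0
    rw [add_zero, zero_add, cq_add, cq_smul] at h3
    rw [h3]
    exact W.add_mem h2 (W.smul_mem _ (hW u hu))

end Pool.Agent.Helper69K1.Gr
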