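import Pool.Agent.Helper69K1.Gr.Stm

/-!
# JM1: half of Jacobson-Morozov
-/

namespace Pool.Agent.Helper69K1.Gr

open Module

section JM1

variable {S : Type} [Ring S] [Algebra ℚ S]

omit [Algebra ℚ S] in
lemma jm1_pow (x B D : S) (hD : x * B - B * x = D) (hc : x * D = D * x) (p : ℕ) :
    x ^ (p + 1) * B = B * x ^ (p + 1) + (p + 1 : ℕ) • (D * x ^ p) := by
  have hxB : x * B = B * x + D := by rw [← hD]; abel
  induction p with
  | zero => simp [hxB]
  | succ p ih =>
    have h1 : x ^ (p + 1 + 1) * B = x * (x ^ (p + 1) * B) := by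
      rw [pow_succ' x (p + 1), mul_assoc]
    have h2 : x * (B * x ^ (p + 1)) = B * x ^ (p + 1 + 1) + D * x ^ (p + 1) := by
      rw [← mul_assoc, hxB, add_mul, pow_succ' x (p + 1), mul_assoc]
    have h3 : x * ((p + 1 : ℕ) • (D * x ^ p)) = (p + 1 : ℕ) • (D * x ^ (p + 1)) := by
      rw [mul_smul_comm, ← mul_assoc, hc, mul_assoc, ← pow_succ']
    rw [h1, ih, mul_add, h2, h3, add_assoc, succ_nsmul (D * x ^ (p + 1)) (p + 1)]
    congr 1
    abel

omit [Algebra ℚ S] in
/-- One step: `x B` preserves `ker x ^ (p + 1)` and acts on its image under `x ^ p` as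
`(p + 1) D`. -/
lemma jm1_step (x B D : S) (hD : x * B - B * x = D) (hc : x * D = D * x) (p : ℕ) (v : S)
    (hv : x ^ (p + 1) * v = 0) (j : ℕ) :
    x ^ (p + 1) * ((x * B) ^ j * v) = 0 ∧
      x ^ p * ((x * B) ^ j * v) = ((p + 1) ^ j : ℕ) • (D ^ j * (x ^ p * v)) := by
  induction j with
  | zero => simpa using hv
  | succ j ih =>
    obtain ⟨ih1, ih2⟩ := ih
    set u := (x * B) ^ j * v with hu
    have hu' : (x * B) ^ (j + 1) * v = x * B * u := by rw [pow_succ', mul_assoc]
    rw [hu']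
    have hxp2 : x ^ (p + 1 + 1) * u = 0 := by
      rw [pow_succ' x (p + 1), mul_assoc, ih1, mul_zero]
    constructor
    · have h1 : x ^ (p + 1) * (x * B * u) = (x ^ (p + 1 + 1) * B) * u := by
        rw [pow_succ x (p + 1)]
        simp only [mul_assoc]
      rw [h1, jm1_pow x B D hD hc (p + 1), add_mul, mul_assoc B, hxp2, mul_zero, zero_add,
        smul_mul_assoc, mul_assoc D, ih1, mul_zero, smul_zero]
    · have h1 : x ^ p * (x * B * u) = (x ^ (p + 1) * B) * u := by
        rw [pow_succ x p]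
        simp only [mul_assoc]
      rw [h1, jm1_pow x B D hD hc p, add_mul, mul_assoc B, ih1, mul_zero, zero_add,
        smul_mul_assoc, mul_assoc D, ih2, mul_smul_comm, smul_smul, ← mul_assoc D (D ^ j),
        ← pow_succ' (p + 1) j, ← pow_succ' D j]

omit [Algebra ℚ S] in
lemma jm1_nil (x B D : S) (hD : x * B - B * x = D) (hc : x * D = D * x) (hx : IsNilpotent x)
    (hDn : IsNilpotent D) : IsNilpotent (x * B) := by
  obtain ⟨N, hN⟩ := hDn
  obtain ⟨k, hk⟩ := hx
  have key : ∀ p : ℕ, ∀ v : S, x ^ p * v = 0 → (x * B) ^ (N * p) * v = 0 := by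
    intro p
    induction p with
    | zero => intro v hv; simpa using hv
    | succ p ih =>
      intro v hv
      have h := (jm1_step x B D hD hc p v hv N).2
      rw [hN, zero_mul, smul_zero] at h
      have h' := ih _ h
      rw [← mul_assoc, ← pow_add] at h'
      rw [mul_add, mul_one]
      exact h'
  refine ⟨N * k, ?_⟩
  have := key k 1 (by rw [hk, zero_mul])
  simpa using this

lemma jm1_Dnil (τ : S →ₗ[ℚ] ℚ) (hτ : TrAlg τ) (x B D : S) (hD : x * B - B * x = D)
    (hc : x * D = D * x) : IsNilpotent D := by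
  refine hτ.nil' D fun m hm => ?_
  obtain ⟨m, rfl⟩ : ∃ k, m = k + 1 := ⟨m - 1, by omega⟩
  have hcm : x * D ^ m = D ^ m * x := ((show Commute x D from hc).pow_right m).eq
  have h1 : D ^ (m + 1) = D ^ m * x * B - D ^ m * B * x := by
    rw [pow_succ]
    nth_rewrite 2 [← hD]
    rw [mul_sub, mul_assoc, mul_assoc]
  rw [h1, map_sub, hτ.comm (D ^ m * B) x, ← mul_assoc, hcm, sub_self]

end JM1

theorem t_JM1 : S_JM1 := by
  intro S _ _ _ τ hτ x hx
  -- `φ = ad x`
  let φ : S →ₗ[ℚ] S := LinearMap.mulLeft ℚ x - LinearMap.mulRight ℚ x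
  have hφ : ∀ a, φ a = x * a - a * x := fun a => by simp [φ]
  let ψ : S →ₗ[ℚ] S := φ ∘ₗ φ
  have hψ : ∀ a, ψ a = x * (x * a - a * x) - (x * a - a * x) * x := fun a => by
    simp [ψ, hφ]
  have hskew : ∀ a b, τ (φ a * b) = - τ (a * φ b) := by
    intro a b
    have e1 : φ a * b = x * (a * b) - a * (x * b) := by
      rw [hφ, sub_mul, mul_assoc, mul_assoc]
    have e2 : a * φ b = a * (x * b) - (a * b) * x := by
      rw [hφ, mul_sub, ← mul_assoc a b x]
    rw [e1, e2, map_sub, map_sub, hτ.comm x (a * b)]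
    ring
  have hsym : ∀ a b, τ (ψ a * b) = τ (a * ψ b) := by
    intro a b
    show τ (φ (φ a) * b) = τ (a * φ (φ b))
    rw [hskew, hskew, neg_neg]
  let Bf : S →ₗ[ℚ] Dual ℚ S := (LinearMap.mul ℚ S).compr₂ τ
  have hBf : ∀ a b, Bf a b = τ (a * b) := fun a b => by simp [Bf]
  have hinj : Function.Injective Bf := by
    rw [injective_iff_map_eq_zero]
    intro a ha
    refine hτ.nondeg a fun b => ?_
    rw [← hBf, ha]
    rfl
  have hsurj : Function.Surjective Bf := by
    refine (LinearMap.injective_iff_surjective_of_finrank_eq_finrank ?_).1 hinj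
    exact (Subspace.dual_finrank_eq).symm
  have hx0 : Bf x ∈ (LinearMap.ker ψ).dualAnnihilator := by
    rw [Submodule.mem_dualAnnihilator]
    intro B hB
    rw [LinearMap.mem_ker, hψ, sub_eq_zero] at hB
    rw [hBf]
    exact hτ.nil _ (jm1_nil x B _ rfl hB hx (jm1_Dnil τ hτ x B _ rfl hB))
  rw [← LinearMap.range_dualMap_eq_dualAnnihilator_ker] at hx0
  obtain ⟨g, hg⟩ := hx0
  obtain ⟨c, rfl⟩ := hsurj g
  have hc : ψ c = x := by
    rw [← sub_eq_zero]
    refine hτ.nondeg _ fun b => ?_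
    have h1 : Bf c (ψ b) = Bf x b := by
      rw [← hg]
      rfl
    rw [hBf, hBf] at h1
    rw [sub_mul, map_sub, hsym, h1, sub_self]
  refine ⟨-c, ?_⟩
  have h2 : ψ (-c) = -x := by rw [map_neg, hc]
  rw [hψ] at h2
  exact h2

end Pool.Agent.Helper69K1.Gr
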