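import Pool.Agent.Helper69K1.Gr.Stm

/-!
# JM2: the operator `y ↦ y + [H, y]` is onto the centralizer of `x`
-/

set_option autoImplicit false

namespace Pool.Agent.Helper69K1.Gr

open Module Pool.Agent.Helper69K1

namespace JM2

variable {S : Type} [Ring S] [Algebra ℚ S]

/-- The operator `a ↦ x a - a x`. -/
noncomputable def ad (x : S) : Module.End ℚ S :=
  LinearMap.mulLeft ℚ x - LinearMap.mulRight ℚ x

lemma ad_apply (x a : S) : ad x a = x * a - a * x := rfl

lemma ad_nil {x : S} (hx : IsNilpotent x) : IsNilpotent (ad x) := by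
  refine (LinearMap.commute_mulLeft_right (R := ℚ) x x).isNilpotent_sub ?_ ?_
  · rwa [LinearMap.isNilpotent_mulLeft_iff]
  · rwa [LinearMap.isNilpotent_mulRight_iff]

/-- `X ^ j D = (D - j) X ^ j`. -/
lemma pow_D {X D : Module.End ℚ S} (h : X * D = D * X - X) (j : ℕ) :
    X ^ j * D = D * X ^ j - (j : ℚ) • X ^ j := by
  induction j with
  | zero => simp
  | succ j ih =>
    have h' : X ^ (j + 1) * D = X * (X ^ j * D) := by rw [← mul_assoc, ← pow_succ']
    rw [h', ih, mul_sub, ← mul_assoc, h, mul_smul_comm, sub_mul, ← pow_succ', mul_assoc,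
      ← pow_succ']
    push_cast
    rw [add_smul, one_smul]
    abel

/-- `X ^ (j + 1) G = G X ^ (j + 1) + (j + 1) (D - j / 2) X ^ j`. -/
lemma pow_G {X D G : Module.End ℚ S} (h : X * D = D * X - X) (hG : X * G = G * X + D) (j : ℕ) :
    X ^ (j + 1) * G = G * X ^ (j + 1) +
      ((j : ℚ) + 1) • (D * X ^ j - ((j : ℚ) / 2) • X ^ j) := by
  induction j with
  | zero => simp [hG]
  | succ j ih =>
    have h' : X ^ (j + 1 + 1) * G = X ^ (j + 1) * (X * G) := by
      rw [← mul_assoc, ← pow_succ]
    rw [h', hG, mul_add, ← mul_assoc, ih, pow_D h, add_mul, mul_assoc, ← pow_succ,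
      smul_mul_assoc, sub_mul, mul_assoc, smul_mul_assoc, ← pow_succ]
    push_cast
    module

end JM2

open JM2

theorem t_JM2 : S_JM2 := by
  intro S _ _ _ x F H hx hH hxH y hy
  set X := ad x with hX
  set G := ad F with hGd
  set D := ad H with hD
  have hXn : IsNilpotent X := ad_nil hx
  have h1 : X * G = G * X + D := by
    ext a
    simp only [Module.End.mul_apply, LinearMap.add_apply, hX, hGd, hD, ad_apply, hH]
    noncomm_ring
  have h2 : X * D = D * X - X := by
    ext a
    have e : x * H = H * x - x := by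
      have := hxH
      rw [sub_eq_iff_eq_add] at this
      rw [this]; abel
    simp only [Module.End.mul_apply, LinearMap.sub_apply, hX, hD, ad_apply]
    have e1 : x * (H * a - a * H) - (H * a - a * H) * x -
        (H * (x * a - a * x) - (x * a - a * x) * H - (x * a - a * x)) =
        (x * H - (H * x - x)) * a - a * (x * H - (H * x - x)) := by noncomm_ring
    rw [← sub_eq_zero, e1, e, sub_self, zero_mul, mul_zero, sub_self]
  -- injectivity
  have key : ∀ v : S, X v = 0 → D v = -v → v = 0 := by
    intro v hv hDv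
    have hr : ∀ j : ℕ, ∃ u, v = (X ^ j) u := by
      intro j
      induction j with
      | zero => exact ⟨v, by simp⟩
      | succ j ih =>
        obtain ⟨u, hu⟩ := ih
        have e := congrArg (fun f : Module.End ℚ S => f u) (pow_G h2 h1 j)
        simp only [Module.End.mul_apply, LinearMap.add_apply, LinearMap.smul_apply,
          LinearMap.sub_apply] at e
        have e0 : (X ^ (j + 1)) u = 0 := by
          rw [pow_succ', Module.End.mul_apply, ← hu, hv]
        rw [e0, map_zero, zero_add, ← hu, hDv] at e
        have hc : ((j : ℚ) + 1) * (-1 - (j : ℚ) / 2) ≠ 0 := by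
          have : (0 : ℚ) ≤ j := Nat.cast_nonneg j
          apply mul_ne_zero
          · linarith
          · intro h
            linarith
        refine ⟨(((j : ℚ) + 1) * (-1 - (j : ℚ) / 2))⁻¹ • G u, ?_⟩
        rw [map_smul, e]
        have : ((j : ℚ) + 1) • (-v - ((j : ℚ) / 2) • v) =
            (((j : ℚ) + 1) * (-1 - (j : ℚ) / 2)) • v := by module
        rw [this, smul_smul, inv_mul_cancel₀ hc, one_smul]
    obtain ⟨N, hN⟩ := hXn
    obtain ⟨u, hu⟩ := hr N
    rw [hu, hN]; rfl
  -- the restriction of `1 + D` to the kernel of `X`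
  have hmap : ∀ v ∈ LinearMap.ker X, (1 + D : Module.End ℚ S) v ∈ LinearMap.ker X := by
    intro v hv
    rw [LinearMap.mem_ker] at hv ⊢
    have e := congrArg (fun f : Module.End ℚ S => f v) h2
    simp only [Module.End.mul_apply, LinearMap.sub_apply] at e
    rw [LinearMap.add_apply, Module.End.one_apply, map_add, e, hv, map_zero]
    simp
  let T : Module.End ℚ (LinearMap.ker X) := (1 + D : Module.End ℚ S).restrict hmap
  have hinj : Function.Injective T := by
    rw [← LinearMap.ker_eq_bot, LinearMap.ker_eq_bot']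
    rintro ⟨v, hv⟩ h
    have h' : (1 + D : Module.End ℚ S) v = 0 := by
      have := congrArg Subtype.val h
      simpa [T, LinearMap.restrict_apply] using this
    have h'' : D v = -v := by
      rw [LinearMap.add_apply, Module.End.one_apply] at h'
      rw [eq_neg_iff_add_eq_zero, add_comm]; exact h'
    exact Subtype.ext (key v (LinearMap.mem_ker.1 hv) h'')
  have hsurj : Function.Surjective T := LinearMap.injective_iff_surjective.1 hinj
  have hyk : y ∈ LinearMap.ker X := by
    rw [LinearMap.mem_ker, hX, ad_apply, hy, sub_self]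
  obtain ⟨⟨y', hy'⟩, h⟩ := hsurj ⟨y, hyk⟩
  refine ⟨y', ?_, ?_⟩
  · have := LinearMap.mem_ker.1 hy'
    rw [hX, ad_apply] at this
    exact sub_eq_zero.1 this
  · have := congrArg Subtype.val h
    rw [LinearMap.restrict_apply] at this
    simpa [hD, ad_apply] using this.symm

end Pool.Agent.Helper69K1.Gr
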