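import Pool.Agent.Helper69K1.Gr.Stm

/-!
# Piece M: the trace form quotient of a matrix algebra
-/

set_option autoImplicit false

namespace Pool.Agent.Helper69K1.Gr

open Module Polynomial Pool.Agent.Helper69K1

namespace PieceM

section nil

variable {F : Type*} [Field F] [CharZero F] {M : Type*} [AddCommGroup M] [Module F M]
  [FiniteDimensional F M]

omit [FiniteDimensional F M] [CharZero F] in
theorem trace_mul_aeval (x : Module.End F M)
    (h : ∀ k : ℕ, 0 < k → LinearMap.trace F M (x ^ k) = 0) (r : F[X]) :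
    LinearMap.trace F M (x * aeval x r) = 0 := by
  induction r using Polynomial.induction_on' with
  | add p q hp hq => rw [map_add, mul_add, map_add, hp, hq, add_zero]
  | monomial n a =>
    have h1 : x * aeval x (monomial n a) = a • x ^ (n + 1) := by
      rw [aeval_monomial, ← mul_assoc, ← Algebra.commutes, mul_assoc, ← pow_succ',
        ← Algebra.smul_def]
    rw [h1, map_smul, h _ (Nat.succ_pos n), smul_zero]

theorem nil_of_trace (x : Module.End F M)
    (h : ∀ k : ℕ, 0 < k → LinearMap.trace F M (x ^ k) = 0) : IsNilpotent x := by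
  have hP0 : x.charpoly ≠ 0 := (LinearMap.charpoly_monic x).ne_zero
  obtain ⟨q, hq, hnd⟩ := Polynomial.exists_eq_pow_rootMultiplicity_mul_and_not_dvd _ hP0 0
  set a := x.charpoly.rootMultiplicity 0 with ha
  rw [map_zero, sub_zero] at hq hnd
  have hco : IsCoprime ((X : F[X]) ^ (a + 1)) q :=
    ((Polynomial.irreducible_X).coprime_iff_not_dvd.2 hnd).pow_left
  obtain ⟨u, v, huv⟩ := hco
  have hCH : aeval x (X ^ a * q) = 0 := by
    rw [← hq]; exact LinearMap.aeval_self_charpoly x
  set e : Module.End F M := aeval x (u * X ^ (a + 1)) with he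
  have hid : IsIdempotentElem e := by
    have h1 : (u * X ^ (a + 1)) * (u * X ^ (a + 1)) =
        u * X ^ (a + 1) - (u * v * X) * (X ^ a * q) := by
      have : u * X ^ (a + 1) = 1 - v * q := by rw [← huv]; ring
      calc (u * X ^ (a + 1)) * (u * X ^ (a + 1)) = (u * X ^ (a + 1)) * (1 - v * q) := by
            rw [this]
        _ = u * X ^ (a + 1) - (u * v * X) * (X ^ a * q) := by ring
    show e * e = e
    rw [he, ← map_mul, h1, map_sub, map_mul _ (u * v * X), hCH, mul_zero, sub_zero]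
  have htr : LinearMap.trace F M e = 0 := by
    have h1 : u * X ^ (a + 1) = X * (u * X ^ a) := by ring
    rw [he, h1, map_mul, aeval_X]
    exact trace_mul_aeval x h _
  have he0 : e = 0 := (LinearMap.IsIdempotentElem.trace_eq_zero_iff hid).1 htr
  refine ⟨a, ?_⟩
  have h2 : X ^ a = X ^ a * (u * X ^ (a + 1)) + v * (X ^ a * q) := by
    calc (X : F[X]) ^ a = X ^ a * (u * X ^ (a + 1) + v * q) := by rw [huv, mul_one]
      _ = _ := by ring
  calc x ^ a = aeval x ((X : F[X]) ^ a) := by rw [map_pow, aeval_X]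
    _ = aeval x ((X : F[X]) ^ a) * e + aeval x v * aeval x (X ^ a * q) := by
        conv_lhs => rw [h2]
        rw [map_add, map_mul, map_mul _ v]
    _ = 0 := by rw [he0, hCH, mul_zero, mul_zero, add_zero]

end nil

variable {n : Type} [Fintype n] [DecidableEq n]

theorem mat_nil_of_trace (X : Matrix n n ℚ) (h : ∀ m : ℕ, 0 < m → (X ^ m).trace = 0) :
    IsNilpotent X := by
  have h1 : IsNilpotent (Matrix.toLin' X) := by
    apply nil_of_trace
    intro m hm
    rw [← Matrix.toLin'_pow, Matrix.trace_toLin'_eq]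
    exact h m hm
  obtain ⟨m, hm⟩ := h1
  refine ⟨m, ?_⟩
  rw [← Matrix.toLin'_pow] at hm
  exact (LinearEquiv.map_eq_zero_iff _).1 hm

theorem trace_of_nil (X : Matrix n n ℚ) (h : IsNilpotent X) : X.trace = 0 :=
  (Matrix.isNilpotent_trace_of_isNilpotent h).eq_zero

/-- powers of `e a` -/
theorem e_pow {e a : Matrix n n ℚ} (he : e * e = e) (hc : e * a = a * e) (m : ℕ) :
    (e * a) ^ (m + 1) = e * a ^ (m + 1) := by
  have hcm : Commute e a := hc
  have hep : ∀ k : ℕ, e ^ (k + 1) = e := by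
    intro k
    induction k with
    | zero => rw [zero_add, pow_one]
    | succ k ih => rw [pow_succ, ih, he]
  rw [hcm.mul_pow, hep]

section main

variable (A : Subalgebra ℚ (Matrix n n ℚ)) (e : Matrix n n ℚ)

/-- the functional -/
noncomputable def phi : A →ₗ[ℚ] ℚ :=
  (Matrix.traceLinearMap n ℚ ℚ) ∘ₗ (LinearMap.mulLeft ℚ e) ∘ₗ A.val.toLinearMap

theorem phi_apply (a : A) : phi A e a = (e * (a : Matrix n n ℚ)).trace := rfl

theorem phi_comm (hc : ∀ a ∈ A, e * a = a * e) (a b : A) : phi A e (a * b) = phi A e (b * a) := by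
  rw [phi_apply, phi_apply]
  push_cast
  rw [← mul_assoc, Matrix.trace_mul_comm, ← mul_assoc, ← hc b b.2, mul_assoc]

/-- the radical of the trace form -/
def J (hc : ∀ a ∈ A, e * a = a * e) : Ideal A where
  carrier := {a | ∀ b, phi A e (a * b) = 0}
  add_mem' := fun {a b} ha hb c => by rw [add_mul, map_add, ha, hb, add_zero]
  zero_mem' := fun c => by rw [zero_mul, map_zero]
  smul_mem' := fun c a ha b => by
    rw [smul_eq_mul, mul_assoc, phi_comm A e hc, mul_assoc]
    exact ha _

theorem mem_J (hc : ∀ a ∈ A, e * a = a * e) (a : A) : a ∈ J A e hc ↔ ∀ b, phi A e (a * b) = 0 :=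
  Iff.rfl

theorem J_two (hc : ∀ a ∈ A, e * a = a * e) : (J A e hc).IsTwoSided :=
  ⟨fun {a} b ha c => by rw [mul_assoc]; exact ha _⟩

end main

end PieceM

open PieceM in
theorem t_M : S_M := by
  intro n _ _ A e heA hee hc
  have := J_two A e hc
  set q : A →ₐ[ℚ] (A ⧸ J A e hc) := Ideal.Quotient.mkₐ ℚ (J A e hc) with hq
  have hqs : Function.Surjective q := Ideal.Quotient.mkₐ_surjective ℚ _
  have hq0 : ∀ a : A, q a = 0 ↔ ∀ b, phi A e (a * b) = 0 := by
    intro a
    rw [hq, Ideal.Quotient.mkₐ_eq_mk, Ideal.Quotient.eq_zero_iff_mem, mem_J]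
  have hfd : FiniteDimensional ℚ (A ⧸ J A e hc) :=
    Module.Finite.of_surjective q.toLinearMap hqs
  have hker : LinearMap.ker q.toLinearMap ≤ LinearMap.ker (phi A e) := by
    intro a ha
    rw [LinearMap.mem_ker] at ha ⊢
    have := (hq0 a).1 ha 1
    rwa [mul_one] at this
  obtain ⟨τ, hτ⟩ : ∃ τ : (A ⧸ J A e hc) →ₗ[ℚ] ℚ, ∀ a : A, τ (q a) = phi A e a := by
    refine ⟨(LinearMap.ker q.toLinearMap).liftQ (phi A e) hker ∘ₗ
      (q.toLinearMap.quotKerEquivOfSurjective hqs).symm.toLinearMap, fun a => ?_⟩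
    rw [LinearMap.comp_apply, LinearEquiv.coe_coe]
    have h1 : (q.toLinearMap.quotKerEquivOfSurjective hqs).symm (q a) =
        (LinearMap.ker q.toLinearMap).mkQ a := by
      rw [LinearEquiv.symm_apply_eq]
      rfl
    rw [h1]
    rfl
  have hnilq : ∀ a : A, IsNilpotent (e * (a : Matrix n n ℚ)) → IsNilpotent (q a) := by
    intro a ha
    obtain ⟨N, hN⟩ := ha
    have hN1 : (e * (a : Matrix n n ℚ)) ^ (N + 1) = 0 := by rw [pow_succ, hN, zero_mul]
    rw [e_pow hee (hc a a.2)] at hN1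
    refine ⟨N + 1, ?_⟩
    rw [← map_pow, hq0]
    intro b
    rw [phi_apply]
    push_cast
    rw [← mul_assoc, hN1, zero_mul, Matrix.trace_zero]
  refine ⟨A ⧸ J A e hc, inferInstance, inferInstance, hfd, τ, q, hqs, ?_, hτ⟩
  refine ⟨?_, ?_, ?_, ?_, ?_⟩
  · intro a b
    obtain ⟨a, rfl⟩ := hqs a
    obtain ⟨b, rfl⟩ := hqs b
    rw [← map_mul, ← map_mul, hτ, hτ, phi_comm A e hc]
  · intro a ha
    obtain ⟨a, rfl⟩ := hqs a
    rw [hq0]
    intro b
    have := ha (q b)
    rwa [← map_mul, hτ] at this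
  · intro a ha
    obtain ⟨a, rfl⟩ := hqs a
    obtain ⟨N, hN⟩ := ha
    have hN1 : q a ^ (N + 1) = 0 := by rw [pow_succ, hN, zero_mul]
    rw [← map_pow, hq0] at hN1
    rw [hτ, phi_apply]
    apply trace_of_nil
    have h2 : IsNilpotent ((e * (a : Matrix n n ℚ)) ^ (N + 1)) := by
      rw [e_pow hee (hc a a.2)]
      apply mat_nil_of_trace
      intro m hm
      obtain ⟨m, rfl⟩ := Nat.exists_eq_succ_of_ne_zero hm.ne'
      have hcN : e * (a : Matrix n n ℚ) ^ (N + 1) = (a : Matrix n n ℚ) ^ (N + 1) * e :=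
        (Commute.pow_right (hc a a.2 : Commute e (a : Matrix n n ℚ)) _)
      rw [Nat.succ_eq_add_one, e_pow hee hcN, pow_succ' _ m]
      have := hN1 ((a ^ (N + 1)) ^ m)
      rw [phi_apply] at this
      push_cast at this
      exact this
    obtain ⟨K, hK⟩ := h2
    exact ⟨(N + 1) * K, by rw [pow_mul]; exact hK⟩
  · intro a ha
    obtain ⟨a, rfl⟩ := hqs a
    apply hnilq
    apply mat_nil_of_trace
    intro m hm
    obtain ⟨m, rfl⟩ := Nat.exists_eq_succ_of_ne_zero hm.ne'
    rw [Nat.succ_eq_add_one, e_pow hee (hc a a.2)]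
    have := ha (m + 1) (Nat.succ_pos m)
    rw [← map_pow, hτ, phi_apply] at this
    push_cast at this
    exact this
  · intro R hR hRt
    -- the space of the matrices `e a`
    set R' : Submodule ℚ A := R.comap q.toLinearMap with hR'
    have hRq : R'.map q.toLinearMap = R :=
      Submodule.map_comap_eq_of_surjective hqs R
    set ψ : A →ₗ[ℚ] Module.End ℚ (n → ℚ) :=
      (Matrix.toLinAlgEquiv' : Matrix n n ℚ ≃ₐ[ℚ] _).toLinearMap ∘ₗ (LinearMap.mulLeft ℚ e) ∘ₗ
        A.val.toLinearMap with hψ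
    have hψa : ∀ a : A, ψ a = Matrix.toLinAlgEquiv' (e * (a : Matrix n n ℚ)) := fun a => rfl
    have hψm : ∀ a b : A, ψ (a * b) = ψ a * ψ b := by
      intro a b
      rw [hψa, hψa, hψa, ← map_mul]
      congr 1
      push_cast
      rw [mul_assoc e (a : Matrix n n ℚ), ← mul_assoc (a : Matrix n n ℚ) e, ← hc a a.2, mul_assoc,
        ← mul_assoc e e, hee]
    have hψ0 : ∀ a : A, ψ a = 0 → q a = 0 := by
      intro a ha
      rw [hψa] at ha
      have h1 : e * (a : Matrix n n ℚ) = 0 := by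
        have := (map_eq_zero_iff (Matrix.toLinAlgEquiv' : Matrix n n ℚ ≃ₐ[ℚ] _)
          (Matrix.toLinAlgEquiv' : Matrix n n ℚ ≃ₐ[ℚ] _).injective).1 ha
        exact this
      rw [hq0]
      intro b
      rw [phi_apply]
      push_cast
      rw [← mul_assoc, h1, zero_mul, Matrix.trace_zero]
    have hL : ∀ x ∈ R'.map ψ, ∀ y ∈ R'.map ψ, x * y - y * x ∈ R'.map ψ := by
      rintro _ ⟨a, ha, rfl⟩ _ ⟨b, hb, rfl⟩
      refine ⟨a * b - b * a, ?_, ?_⟩
      · change q (a * b - b * a) ∈ R
        rw [map_sub, map_mul, map_mul]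
        exact hR _ ha _ hb
      · rw [map_sub, hψm, hψm]
    have htr : ∀ x ∈ R'.map ψ, ∀ y ∈ R'.map ψ, LinearMap.trace ℚ (n → ℚ) (x * y) = 0 := by
      rintro _ ⟨a, ha, rfl⟩ _ ⟨b, hb, rfl⟩
      rw [← hψm, hψa]
      have h1 := hRt _ ha _ hb
      change τ (q a * q b) = 0 at h1
      rw [← map_mul, hτ, phi_apply] at h1
      rw [← h1]
      exact Matrix.trace_toLin'_eq _
    obtain ⟨p, hp⟩ := comms_nil hL htr
    have hcm : ∀ a ∈ comms R', ψ a ∈ comms (R'.map ψ) := by
      intro a ha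
      refine Submodule.span_induction (p := fun a _ => ψ a ∈ comms (R'.map ψ)) ?_ ?_ ?_ ?_ ha
      · rintro _ ⟨a, ha, b, hb, rfl⟩
        rw [map_sub, hψm, hψm]
        exact comms_mem ⟨a, ha, rfl⟩ ⟨b, hb, rfl⟩
      · rw [map_zero]; exact Submodule.zero_mem _
      · intro a b _ _ ha hb
        rw [map_add]; exact Submodule.add_mem _ ha hb
      · intro c a _ ha
        rw [map_smul]; exact Submodule.smul_mem _ _ ha
    have hpw : ∀ j : ℕ, ∀ a ∈ comms R' ^ (j + 1), ψ a ∈ comms (R'.map ψ) ^ (j + 1) := by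
      intro j
      induction j with
      | zero =>
          intro a ha
          rw [zero_add, pow_one] at ha ⊢
          exact hcm a ha
      | succ j ih =>
          intro a ha
          rw [pow_succ] at ha ⊢
          refine Submodule.mul_induction_on ha ?_ ?_
          · intro x hx y hy
            rw [hψm]
            exact Submodule.mul_mem_mul (ih x hx) (hcm y hy)
          · intro x y hx hy
            rw [map_add]
            exact Submodule.add_mem _ hx hy
    refine ⟨p + 1, le_bot_iff.1 fun x hx => ?_⟩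
    have h1 : comms R = (comms R').map q.toLinearMap := by
      unfold comms
      rw [Submodule.map_span]
      congr 1
      ext c
      constructor
      · rintro ⟨a, ha, b, hb, rfl⟩
        obtain ⟨a, rfl⟩ := hqs a
        obtain ⟨b, rfl⟩ := hqs b
        exact ⟨a * b - b * a, ⟨a, ha, b, hb, rfl⟩, by simp⟩
      · rintro ⟨_, ⟨a, ha, b, hb, rfl⟩, rfl⟩
        exact ⟨q a, ha, q b, hb, by simp⟩
    rw [h1, ← Submodule.map_pow] at hx
    obtain ⟨a, ha, rfl⟩ := hx
    have h2 := hpw p a ha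
    rw [pow_succ, hp, Submodule.bot_mul, Submodule.mem_bot] at h2
    rw [Submodule.mem_bot]
    exact hψ0 a h2

end Pool.Agent.Helper69K1.Gr
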