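import Pool.Agent.Helper69K1.Gr.Stm

/-!
# Extension of kernel vectors along a pencil of locally constant maximal rank (piece R)
-/

set_option autoImplicit false

open Module

namespace Pool.Agent.Helper69K1.Gr

theorem ext_ker (U U' : Type) [AddCommGroup U] [Module ℚ U] [FiniteDimensional ℚ U]
    [AddCommGroup U'] [Module ℚ U'] [FiniteDimensional ℚ U'] (P Q : U →ₗ[ℚ] U')
    (hrk : ∀ t : ℕ, t ≤ 2 * finrank ℚ U + 3 →
      finrank ℚ (LinearMap.range (P + (t : ℚ) • Q)) ≤ finrank ℚ (LinearMap.range P))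
    (y : U) (hy : P y = 0) : ∃ v : ℕ → U, v 0 = y ∧ (∀ j, P (v (j + 1)) + Q (v j) = 0) ∧
      ∃ d, ∀ j, d ≤ j → v j = 0 := by
  classical
  obtain ⟨C, hC⟩ := Submodule.exists_isCompl (LinearMap.ker P)
  set PC : C →ₗ[ℚ] U' := P ∘ₗ C.subtype with hPCdef
  have hPC : LinearMap.ker PC = ⊥ := by
    rw [LinearMap.ker_eq_bot']
    intro z hz
    have h1 : (z : U) ∈ LinearMap.ker P ⊓ C := ⟨hz, z.2⟩
    rw [hC.inf_eq_bot, Submodule.mem_bot] at h1
    exact Subtype.ext h1
  obtain ⟨g, hg⟩ := LinearMap.exists_leftInverse_of_injective PC hPC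
  have hg' : ∀ z : C, g (P (z : U)) = z := fun z => by
    have := LinearMap.congr_fun hg z
    simpa [hPCdef] using this
  set N : C →ₗ[ℚ] C := g ∘ₗ Q ∘ₗ C.subtype with hN
  have hN' : ∀ z : C, g (Q (z : U)) = N z := fun z => rfl
  obtain ⟨χ, hχ⟩ : ∃ χ : Polynomial ℚ, χ = LinearMap.charpoly (-N) := ⟨_, rfl⟩
  set c := finrank ℚ C with hc
  have hdeg : χ.natDegree = c := by rw [hχ, LinearMap.charpoly_natDegree]
  have hmon : χ.Monic := by rw [hχ]; exact LinearMap.charpoly_monic _
  have hzero : Polynomial.aeval (-N) χ = 0 := by rw [hχ]; exact LinearMap.aeval_self_charpoly _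
  obtain ⟨h, hh⟩ : ∃ h : ℕ → ℚ, h = fun i => if i ≤ c then χ.coeff (c - i) else 0 := ⟨_, rfl⟩
  have h0 : h 0 = 1 := by
    rw [hh]
    simp only [Nat.zero_le, if_true, Nat.sub_zero]
    rw [← hdeg]
    exact hmon.coeff_natDegree
  have hbig : ∀ i, c < i → h i = 0 := fun i hi => by
    rw [hh]
    simp only [if_neg (not_le.2 hi)]
  -- the coefficients of the adjoint
  obtain ⟨A, hA0, hAs⟩ : ∃ A : ℕ → (C →ₗ[ℚ] C), A 0 = h 0 • (1 : C →ₗ[ℚ] C) ∧
      ∀ j, A (j + 1) = h (j + 1) • (1 : C →ₗ[ℚ] C) - N * A j :=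
    ⟨fun n => Nat.rec (h 0 • (1 : C →ₗ[ℚ] C)) (fun j a => h (j + 1) • (1 : C →ₗ[ℚ] C) - N * a) n,
      rfl, fun j => rfl⟩
  have hAf : ∀ j, A j = ∑ i ∈ Finset.range (j + 1), h i • (-N) ^ (j - i) := by
    intro j
    induction j with
    | zero => simp [hA0]
    | succ j ih =>
      rw [Finset.sum_range_succ _ (j + 1), Nat.sub_self, pow_zero, hAs, ih, Finset.mul_sum,
        sub_eq_add_neg, ← Finset.sum_neg_distrib, add_comm]
      congr 1
      refine Finset.sum_congr rfl fun i hi => ?_
      have hi' : i ≤ j := Nat.lt_succ_iff.1 (Finset.mem_range.1 hi)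
      have hneg : ∀ B : C →ₗ[ℚ] C, -N * B = -(N * B) := fun B => LinearMap.neg_comp _ _
      rw [Nat.succ_sub hi', pow_succ', mul_smul_comm, hneg, smul_neg]
  have hAc : A c = 0 := by
    rw [hAf, ← Finset.sum_range_reflect, ← hzero, Polynomial.aeval_eq_sum_range, hdeg]
    refine Finset.sum_congr rfl fun i hi => ?_
    have hi' : i ≤ c := Nat.lt_succ_iff.1 (Finset.mem_range.1 hi)
    rw [hh]
    have e1 : c + 1 - 1 - i = c - i := by omega
    have e2 : c - (c - i) = i := by omega
    simp only [e1, e2, if_pos (Nat.sub_le c i)]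
  have hAbig : ∀ j, c ≤ j → A j = 0 := by
    intro j hj
    induction j, hj using Nat.le_induction with
    | base => exact hAc
    | succ j hj ih => rw [hAs, ih, hbig _ (by omega), zero_smul, mul_zero, sub_zero]
  -- the vectors
  set w : C := g (Q y) with hw
  obtain ⟨v, hv0, hvs⟩ : ∃ v : ℕ → U, v 0 = y ∧ ∀ j, v (j + 1) = h (j + 1) • y - (A j w : U) :=
    ⟨fun n => Nat.casesOn n y fun j => h (j + 1) • y - (A j w : U), rfl, fun j => rfl⟩
  have hvbig : ∀ j, c + 1 ≤ j → v j = 0 := by
    intro j hj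
    obtain ⟨i, rfl⟩ := Nat.exists_eq_succ_of_ne_zero (by omega : j ≠ 0)
    rw [Nat.succ_eq_add_one, hvs, hbig _ (by omega), hAbig _ (by omega)]
    simp
  have hgW : ∀ j, g (P (v (j + 1)) + Q (v j)) = 0 := by
    intro j
    have h1 : g (P (v (j + 1))) = - A j w := by
      rw [hvs, map_sub, map_smul, hy, smul_zero, zero_sub, map_neg, hg']
    have h2 : g (Q (v j)) = A j w := by
      cases j with
      | zero => rw [hv0, hA0, h0, one_smul]; rfl
      | succ j =>
        rw [hvs, hAs, map_sub, map_smul, map_sub, map_smul, hN']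
        rfl
    rw [map_add, h1, h2, neg_add_cancel]
  -- evaluation
  have heval : ∀ t : ℚ, (P + t • Q) (∑ j ∈ Finset.range (c + 1), t ^ j • v j) =
      ∑ j ∈ Finset.range (c + 1), t ^ (j + 1) • (P (v (j + 1)) + Q (v j)) := by
    intro t
    have e1 : ∑ j ∈ Finset.range (c + 1), t ^ (j + 1) • P (v (j + 1)) =
        ∑ j ∈ Finset.range (c + 1), t ^ j • P (v j) := by
      rw [Finset.sum_range_succ, hvbig (c + 1) le_rfl, map_zero, smul_zero, add_zero,
        Finset.sum_range_succ', hv0, hy, smul_zero, add_zero]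
    have e2 : ∑ j ∈ Finset.range (c + 1), t ^ (j + 1) • Q (v j) =
        t • ∑ j ∈ Finset.range (c + 1), t ^ j • Q (v j) := by
      rw [Finset.smul_sum]
      refine Finset.sum_congr rfl fun j _ => ?_
      rw [pow_succ', mul_smul]
    simp only [smul_add, Finset.sum_add_distrib]
    rw [e1, e2, LinearMap.add_apply, LinearMap.smul_apply, map_sum, map_sum]
    simp only [map_smul]
  have hadj : ∀ t : ℚ, ((1 : C →ₗ[ℚ] C) + t • N) * (∑ j ∈ Finset.range (c + 1), t ^ j • A j) =
      (∑ j ∈ Finset.range (c + 1), t ^ j * h j) • (1 : C →ₗ[ℚ] C) := by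
    intro t
    have e1 : (t • N) * (∑ j ∈ Finset.range (c + 1), t ^ j • A j) =
        ∑ j ∈ Finset.range c, t ^ (j + 1) • (N * A j) := by
      rw [Finset.sum_range_succ, hAc, smul_zero, add_zero, Finset.mul_sum]
      refine Finset.sum_congr rfl fun j _ => ?_
      rw [smul_mul_assoc, mul_smul_comm, smul_smul, pow_succ']
    rw [add_mul, one_mul, e1, Finset.sum_range_succ', add_right_comm, ← Finset.sum_add_distrib,
      Finset.sum_smul, Finset.sum_range_succ' (fun j => (t ^ j * h j) • (1 : C →ₗ[ℚ] C)), hA0]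
    congr 1
    · refine Finset.sum_congr rfl fun j _ => ?_
      rw [← smul_add, hAs, sub_add_cancel, smul_smul]
    · rw [smul_smul]
  -- dimension count
  have hdim : c = finrank ℚ (LinearMap.range P) := by
    have h1 := LinearMap.finrank_range_add_finrank_ker P
    have h2 := Submodule.finrank_add_eq_of_isCompl hC
    omega
  have hcU : c ≤ finrank ℚ U := Submodule.finrank_le C
  have hgood : ∀ t : ℕ, t ≤ 2 * finrank ℚ U + 3 →
      (∑ j ∈ Finset.range (c + 1), (t : ℚ) ^ j * h j) ≠ 0 →
      ∑ j ∈ Finset.range (c + 1), (t : ℚ) ^ (j + 1) • (P (v (j + 1)) + Q (v j)) = 0 := by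
    intro t ht hne
    have hsurj : Function.Surjective ((1 : C →ₗ[ℚ] C) + (t : ℚ) • N) := by
      intro z
      refine ⟨(∑ j ∈ Finset.range (c + 1), (t : ℚ) ^ j * h j)⁻¹ •
        (∑ j ∈ Finset.range (c + 1), (t : ℚ) ^ j • A j) z, ?_⟩
      have h1 := LinearMap.congr_fun (hadj (t : ℚ)) z
      rw [Module.End.mul_apply] at h1
      rw [map_smul, h1, LinearMap.smul_apply, smul_smul, inv_mul_cancel₀ hne, one_smul]
      rfl
    have hinj : Function.Injective ((1 : C →ₗ[ℚ] C) + (t : ℚ) • N) := LinearMap.injective_iff_surjective.2 hsurj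
    set L := P + (t : ℚ) • Q with hL
    set LC : C →ₗ[ℚ] U' := L ∘ₗ C.subtype with hLC
    have hgL : ∀ z : C, g (LC z) = ((1 : C →ₗ[ℚ] C) + (t : ℚ) • N) z := by
      intro z
      have : LC z = P (z : U) + (t : ℚ) • Q (z : U) := rfl
      rw [this, map_add, map_smul, hg', hN']
      rfl
    have hLCinj : Function.Injective LC := by
      intro a b hab
      apply hinj
      rw [← hgL, ← hgL, hab]
    have hr1 : finrank ℚ (LinearMap.range LC) = c := LinearMap.finrank_range_of_inj hLCinj
    have hle : LinearMap.range LC ≤ LinearMap.range L := by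
      rw [hLC]
      exact LinearMap.range_comp_le_range _ _
    have heq : LinearMap.range LC = LinearMap.range L :=
      Submodule.eq_of_le_of_finrank_le hle (by rw [hr1, hdim]; exact hrk t ht)
    rw [← heval]
    have hmem : (P + (t : ℚ) • Q) (∑ j ∈ Finset.range (c + 1), (t : ℚ) ^ j • v j) ∈
        LinearMap.range LC := by
      rw [heq]
      exact LinearMap.mem_range_self _ _
    obtain ⟨z, hz⟩ := hmem
    have hgz : g (LC z) = 0 := by
      rw [hz, heval, map_sum]
      refine Finset.sum_eq_zero fun j _ => ?_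
      rw [map_smul, hgW, smul_zero]
    rw [hgL] at hgz
    have hz0 : z = 0 := hinj (by rw [hgz, map_zero])
    rw [← hz, hz0, map_zero]
  -- the polynomial argument
  have hW : ∀ j, j < c + 1 → P (v (j + 1)) + Q (v j) = 0 := by
    intro j hj
    rw [← Module.forall_dual_apply_eq_zero_iff ℚ]
    intro φ
    set p : Polynomial ℚ := ∑ j ∈ Finset.range (c + 1),
      Polynomial.C (φ (P (v (j + 1)) + Q (v j))) * Polynomial.X ^ j with hp
    set q : Polynomial ℚ := ∑ j ∈ Finset.range (c + 1),
      Polynomial.C (h j) * Polynomial.X ^ j with hq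
    have hpdeg : p.natDegree ≤ c := by
      refine Polynomial.natDegree_sum_le_of_forall_le _ _ fun i hi => ?_
      exact (Polynomial.natDegree_C_mul_X_pow_le _ _).trans
        (Nat.lt_succ_iff.1 (Finset.mem_range.1 hi))
    have hqdeg : q.natDegree ≤ c := by
      refine Polynomial.natDegree_sum_le_of_forall_le _ _ fun i hi => ?_
      exact (Polynomial.natDegree_C_mul_X_pow_le _ _).trans
        (Nat.lt_succ_iff.1 (Finset.mem_range.1 hi))
    have hqc : q.coeff 0 = 1 := by
      rw [hq, Polynomial.finsetSum_coeff, Finset.sum_range_succ']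
      simp [h0]
    have hq0 : q ≠ 0 := by
      intro h1
      rw [h1, Polynomial.coeff_zero] at hqc
      exact zero_ne_one hqc
    have hpq : p * q = 0 := by
      refine Polynomial.eq_zero_of_natDegree_lt_card_of_eval_eq_zero' (p * q)
        ((Finset.Icc 1 (2 * c + 1)).image (fun t : ℕ => (t : ℚ))) ?_ ?_
      · intro x hx
        obtain ⟨t, ht, rfl⟩ := Finset.mem_image.1 hx
        rw [Finset.mem_Icc] at ht
        rw [Polynomial.eval_mul]
        by_cases h1 : Polynomial.eval (t : ℚ) q = 0
        · rw [h1, mul_zero]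
        · have h2 : (∑ j ∈ Finset.range (c + 1), (t : ℚ) ^ j * h j) ≠ 0 := by
            intro h3
            apply h1
            rw [hq, Polynomial.eval_finsetSum, ← h3]
            refine Finset.sum_congr rfl fun i _ => ?_
            rw [Polynomial.eval_mul, Polynomial.eval_C, Polynomial.eval_pow, Polynomial.eval_X,
              mul_comm]
          have h3 := congrArg φ (hgood t (by omega) h2)
          rw [map_sum, map_zero] at h3
          have h4 : Polynomial.eval (t : ℚ) p * t = 0 := by
            rw [hp, Polynomial.eval_finsetSum, Finset.sum_mul, ← h3]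
            refine Finset.sum_congr rfl fun i _ => ?_
            rw [map_smul, smul_eq_mul, Polynomial.eval_mul, Polynomial.eval_C,
              Polynomial.eval_pow, Polynomial.eval_X, pow_succ]
            ring
          have ht0 : (t : ℚ) ≠ 0 := by
            have : t ≠ 0 := by omega
            exact_mod_cast this
          rw [(mul_eq_zero.1 h4).resolve_right ht0, zero_mul]
      · rw [Finset.card_image_of_injective _ Nat.cast_injective, Nat.card_Icc]
        refine lt_of_le_of_lt Polynomial.natDegree_mul_le ?_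
        omega
    have hp0 : p = 0 := (mul_eq_zero.1 hpq).resolve_right hq0
    have hcoef : p.coeff j = φ (P (v (j + 1)) + Q (v j)) := by
      rw [hp, Polynomial.finsetSum_coeff]
      rw [Finset.sum_eq_single j]
      · rw [Polynomial.coeff_C_mul_X_pow, if_pos rfl]
      · intro i _ hij
        rw [Polynomial.coeff_C_mul_X_pow, if_neg (Ne.symm hij)]
      · intro h1
        exact absurd (Finset.mem_range.2 hj) h1
    rw [← hcoef, hp0, Polynomial.coeff_zero]
  refine ⟨v, hv0, fun j => ?_, c + 1, hvbig⟩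
  rcases Nat.lt_or_ge j (c + 1) with hj | hj
  · exact hW j hj
  · rw [hvbig j hj, hvbig (j + 1) (by omega), map_zero, map_zero, add_zero]

/-- R. -/
theorem t_R : S_R := ext_ker

end Pool.Agent.Helper69K1.Gr
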