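import Pool.Agent.Helper69K1.Lts
import Pool.Agent.Helper69K1.Nil
import Pool.Agent.Helper69K1.Fit2

/-!
# Degree one parts of `ℤ/k`-graded Lie algebras of matrices: statements of the pieces
-/

namespace Pool.Agent.Helper69K1.Gr

open Module Pool.Agent.Helper69K1

/-- `com h j` is spanned by the iterated commutators `[a_0, [a_1, ..., [a_(j-1), a_j]]]` of `j + 1`
elements of `h`. -/
def com {S : Type} [Ring S] [Algebra ℚ S] (h : Submodule ℚ S) : ℕ → Submodule ℚ S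
  | 0 => h
  | j + 1 => Submodule.span ℚ {c | ∃ a ∈ h, ∃ b ∈ com h j, c = a * b - b * a}

/-- `(a, b) ↦ τ (a b)` behaves as the trace form of a faithful semisimple representation. -/
structure TrAlg {S : Type} [Ring S] [Algebra ℚ S] (τ : S →ₗ[ℚ] ℚ) : Prop where
  comm : ∀ a b, τ (a * b) = τ (b * a)
  nondeg : ∀ a, (∀ b, τ (a * b) = 0) → a = 0
  nil : ∀ a, IsNilpotent a → τ a = 0
  nil' : ∀ a, (∀ m : ℕ, 0 < m → τ (a ^ m) = 0) → IsNilpotent a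
  car : ∀ R : Submodule ℚ S, (∀ a ∈ R, ∀ b ∈ R, a * b - b * a ∈ R) →
    (∀ a ∈ R, ∀ b ∈ R, τ (a * b) = 0) → ∃ p, (comms R) ^ p = ⊥

/-- The centre as a subspace. -/
def ctr (S : Type) [Ring S] [Algebra ℚ S] : Submodule ℚ S where
  carrier := {z | ∀ a, z * a = a * z}
  add_mem' := fun {a b} ha hb c => by rw [add_mul, mul_add, ha, hb]
  zero_mem' := fun c => by rw [zero_mul, mul_zero]
  smul_mem' := fun r a ha c => by rw [smul_mul_assoc, mul_smul_comm, ha]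

/-- A grading by `ℤ/(κ+1)` for which `h` has degree one. -/
structure Grad {S : Type} [Ring S] [Algebra ℚ S] (κ : ℕ) (h : Submodule ℚ S) where
  deg : ZMod (κ + 1) → Submodule ℚ S
  pr : ZMod (κ + 1) → S →ₗ[ℚ] S
  mul : ∀ i j, ∀ a ∈ deg i, ∀ b ∈ deg j, a * b ∈ deg (i + j)
  le : h ≤ deg 1
  prj : ∀ i, ∀ a ∈ deg i, ∀ j, pr j a = if j = i then a else 0

/-- Every element commuting with `x` extends to a polynomial `∑ v_j t ^ j` commuting with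
`x + t Z`. -/
def Ext {S : Type} [Ring S] (x Z : S) : Prop :=
  ∀ y, x * y = y * x → ∃ v : ℕ → S, v 0 = y ∧
    (∀ j, (x * v (j + 1) - v (j + 1) * x) + (Z * v j - v j * Z) = 0) ∧ ∃ d, ∀ j, d ≤ j → v j = 0

/-- COM. -/
def S_COM : Prop := ∀ (S : Type) [Ring S] [Algebra ℚ S] (h : Submodule ℚ S),
  (∀ i j, ∀ a ∈ com h i, ∀ b ∈ com h j, a * b - b * a ∈ com h (i + j + 1)) ∧
  (∀ k, com h k ≤ h → ∀ j, com h (j + k) ≤ com h j) ∧
  (∀ (h' : Submodule ℚ S), h ≤ h' → ∀ j, com h j ≤ com h' j) ∧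
  (∀ (T : Type) [Ring T] [Algebra ℚ T] (f : S →ₐ[ℚ] T) (j : ℕ),
    com (h.map f.toLinearMap) j = (com h j).map f.toLinearMap)

/-- JM1. -/
def S_JM1 : Prop := ∀ (S : Type) [Ring S] [Algebra ℚ S] [FiniteDimensional ℚ S] (τ : S →ₗ[ℚ] ℚ),
  TrAlg τ → ∀ x : S, IsNilpotent x →
    ∃ F : S, x * (x * F - F * x) - (x * F - F * x) * x = -x

/-- JM2. -/
def S_JM2 : Prop := ∀ (S : Type) [Ring S] [Algebra ℚ S] [FiniteDimensional ℚ S] (x F H : S),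
  IsNilpotent x → H = x * F - F * x → x * H - H * x = -x →
    ∀ y, x * y = y * x → ∃ y', x * y' = y' * x ∧ y = y' + (H * y' - y' * H)

/-- A. -/
def S_A : Prop := ∀ (S : Type) [Ring S] [Algebra ℚ S] [FiniteDimensional ℚ S] (τ : S →ₗ[ℚ] ℚ),
  TrAlg τ → ∀ x Z : S, (∀ t : ℚ, IsNilpotent (x + t • Z)) → Ext x Z → ∃ s, Z = s * x - x * s

/-- R. -/
def S_R : Prop := ∀ (U U' : Type) [AddCommGroup U] [Module ℚ U] [FiniteDimensional ℚ U]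
  [AddCommGroup U'] [Module ℚ U'] [FiniteDimensional ℚ U'] (P Q : U →ₗ[ℚ] U'),
  (∀ t : ℕ, t ≤ 2 * finrank ℚ U + 3 →
    finrank ℚ (LinearMap.range (P + (t : ℚ) • Q)) ≤ finrank ℚ (LinearMap.range P)) →
  ∀ y, P y = 0 → ∃ v : ℕ → U, v 0 = y ∧ (∀ j, P (v (j + 1)) + Q (v j) = 0) ∧
    ∃ d, ∀ j, d ≤ j → v j = 0

/-- B1. -/
def S_B1 : Prop := ∀ (S : Type) [Ring S] [Algebra ℚ S] [FiniteDimensional ℚ S] (τ : S →ₗ[ℚ] ℚ),
  TrAlg τ → ∀ L : Submodule ℚ S, (∀ a ∈ L, ∀ b ∈ L, a * b - b * a ∈ L) →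
    Algebra.adjoin ℚ (L : Set S) = ⊤ →
    ∀ l ∈ L ⊔ ctr S, (∀ l' ∈ L ⊔ ctr S, τ (l * l') = 0) → l = 0

/-- B. -/
def S_B : Prop := ∀ (S : Type) [Ring S] [Algebra ℚ S] [FiniteDimensional ℚ S] (τ : S →ₗ[ℚ] ℚ),
  TrAlg τ → ∀ (κ : ℕ) (h : Submodule ℚ S), com h (κ + 1) ≤ h →
    Algebra.adjoin ℚ (h : Set S) = ⊤ → Nonempty (Grad κ h) →
    ∀ x ∈ h, ∀ Z ∈ h, ∀ s, Z = s * x - x * s → ∃ l ∈ com h κ, Z = l * x - x * l

/-- M. -/
def S_M : Prop := ∀ (n : Type) [Fintype n] [DecidableEq n] (A : Subalgebra ℚ (Matrix n n ℚ))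
  (e : Matrix n n ℚ), e ∈ A → e * e = e → (∀ a ∈ A, e * a = a * e) →
  ∃ (S : Type) (_ : Ring S) (_ : Algebra ℚ S) (_ : FiniteDimensional ℚ S) (τ : S →ₗ[ℚ] ℚ)
    (q : A →ₐ[ℚ] S), Function.Surjective q ∧ TrAlg τ ∧
    ∀ a : A, τ (q a) = (e * (a : Matrix n n ℚ)).trace

/-- GR. -/
def S_GR : Prop := ∀ (n : Type) [Fintype n] [DecidableEq n] (κ : ℕ)
  (P : ZMod (κ + 1) → Matrix n n ℚ), ∑ i, P i = 1 →
  (∀ i j, P i * P j = if i = j then P i else 0) →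
  ∀ h : Submodule ℚ (Matrix n n ℚ), (∀ X ∈ h, ∀ i, X * P i = P (i + 1) * X) →
  ∀ A : Subalgebra ℚ (Matrix n n ℚ), A = Algebra.adjoin ℚ (h : Set (Matrix n n ℚ)) →
  ∀ e ∈ A, e * e = e → (∀ a ∈ A, e * a = a * e) → (∀ i, e * P i = P i * e) →
  ∀ (S : Type) [Ring S] [Algebra ℚ S] (τ : S →ₗ[ℚ] ℚ) (q : A →ₐ[ℚ] S),
    Function.Surjective q → TrAlg τ → (∀ a : A, τ (q a) = (e * (a : Matrix n n ℚ)).trace) →
    Nonempty (Grad κ ((h.comap A.val.toLinearMap).map q.toLinearMap))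

/-- E. -/
def S_E : Prop := ∀ (n : Type) [Fintype n] [DecidableEq n] (x : Matrix n n ℚ), x.det = 0 →
  ∃ e ∈ Algebra.adjoin ℚ ({x} : Set (Matrix n n ℚ)), e * e = e ∧ e ≠ 0 ∧
    (∀ (E : ℕ) (y : Matrix n n ℚ), (adR ℚ x ^ E) y = 0 → e * y = y * e) ∧
    (∀ (E : ℕ) (y : Matrix n n ℚ), (adR ℚ x ^ E) y = 0 →
      (∀ s : ℚ, srk (x + s • y) ≤ srk x) → IsNilpotent (e * y)) ∧
    (∀ (κ : ℕ) (P : ZMod (κ + 1) → Matrix n n ℚ), (∀ i, x * P i = P (i + 1) * x) →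
      ∀ i, e * P i = P i * e)

/-- D. -/
def S_D : Prop := ∀ (n : Type) [Fintype n] [DecidableEq n] (κ : ℕ)
  (B : Submodule ℚ (Matrix n n ℚ)), com B (κ + 1) ≤ B → ∀ x ∈ B, ∀ E : ℕ,
  finrank ℚ (Matrix n n ℚ) ≤ E → com (nullC B x E) (κ + 1) ≤ nullC B x E ∧
    ∀ Y ∈ B, ∃ s ∈ nullC B x E, ∃ M ∈ normB B, Y = s + (M * x - x * M)

/-- The form `(a, b) ↦ tr (w (a b - b a))` on a space of matrices. -/
noncomputable def frm {n : Type} [Fintype n] [DecidableEq n] (A : Submodule ℚ (Matrix n n ℚ))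
    (w : Matrix n n ℚ) : A →ₗ[ℚ] Module.Dual ℚ A :=
  LinearMap.mk₂ ℚ (fun a b => (w * ((a : Matrix n n ℚ) * b - (b : Matrix n n ℚ) * a)).trace)
    (fun a a' b => by
      rw [← Matrix.trace_add, ← mul_add]
      congr 2
      simp only [Submodule.coe_add, add_mul, mul_add]
      abel)
    (fun c a b => by
      rw [← Matrix.trace_smul]
      congr 1
      simp only [Submodule.coe_smul, smul_mul_assoc, mul_smul_comm, ← smul_sub])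
    (fun a b b' => by
      rw [← Matrix.trace_add, ← mul_add]
      congr 2
      simp only [Submodule.coe_add, add_mul, mul_add]
      abel)
    (fun c a b => by
      rw [← Matrix.trace_smul]
      congr 1
      simp only [Submodule.coe_smul, smul_mul_assoc, mul_smul_comm, ← smul_sub])

/-- The rank of the form. -/
noncomputable def rkA {n : Type} [Fintype n] [DecidableEq n] (A : Submodule ℚ (Matrix n n ℚ))
    (w : Matrix n n ℚ) : ℕ := finrank ℚ (LinearMap.range (frm A w))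

/-- N: the nil stage. -/
def S_N : Prop := ∀ (n : Type) [Fintype n] [DecidableEq n] (κ : ℕ)
  (P : ZMod (κ + 1) → Matrix n n ℚ), ∑ i, P i = 1 →
  (∀ i j, P i * P j = if i = j then P i else 0) →
  ∀ h : Submodule ℚ (Matrix n n ℚ), (∀ X ∈ h, ∀ i, X * P i = P (i + 1) * X) →
  com h (κ + 1) ≤ h →
  ∀ e ∈ Algebra.adjoin ℚ (h : Set (Matrix n n ℚ)), e * e = e → (∀ a ∈ h, e * a = a * e) →
  (∀ i, e * P i = P i * e) →
  ∀ (m : ℕ) (z : Fin m → Matrix n n ℚ), (∀ i, z i ∈ h) →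
  h ≤ Submodule.span ℚ (Set.range z) → ∀ w ∈ h,
  (∀ i (t : ℕ), t ≤ Fintype.card n → IsNilpotent (e * (w + (t : ℚ) • z i))) →
  (∀ i (t : ℕ), t ≤ 2 * Fintype.card n ^ 2 + 3 →
    rkA (Algebra.adjoin ℚ (h : Set (Matrix n n ℚ))).toSubmodule (w + (t : ℚ) • z i) ≤
      rkA (Algebra.adjoin ℚ (h : Set (Matrix n n ℚ))).toSubmodule w) →
  ∃ T : Submodule ℚ (Matrix n n ℚ), T ≤ h ∧ w ∈ T ∧ (∀ s ∈ T, IsNilpotent (e * s)) ∧
    ∀ Y ∈ h, ∃ s ∈ T, ∃ l ∈ com h κ, Y = s + (l * w - w * l)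

/-- G: local maximality decides singularity. -/
def S_G : Prop := ∀ (n : Type) [Fintype n] [DecidableEq n] (κ : ℕ)
  (P : ZMod (κ + 1) → Matrix n n ℚ), ∑ i, P i = 1 →
  (∀ i j, P i * P j = if i = j then P i else 0) →
  ∀ B : Submodule ℚ (Matrix n n ℚ), (∀ X ∈ B, ∀ i, X * P i = P (i + 1) * X) →
  com B (κ + 1) ≤ B → ∀ x ∈ B, ∀ E : ℕ, finrank ℚ (Matrix n n ℚ) ≤ E →
  ∀ (m : ℕ) (z : Fin m → Matrix n n ℚ), (∀ i, z i ∈ nullC B x E) →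
  nullC B x E ≤ Submodule.span ℚ (Set.range z) → ∀ w ∈ nullC B x E,
  (∀ i (t : ℕ), t ≤ Fintype.card n → ∀ s : ℚ, srk (x + s • (w + (t : ℚ) • z i)) ≤ srk x) →
  (∀ i (t : ℕ), t ≤ 2 * Fintype.card n ^ 2 + 3 →
    rkA (Algebra.adjoin ℚ (nullC B x E : Set (Matrix n n ℚ))).toSubmodule (w + (t : ℚ) • z i) ≤
      rkA (Algebra.adjoin ℚ (nullC B x E : Set (Matrix n n ℚ))).toSubmodule w) →
  x.det = 0 → ∀ Y ∈ B, Y.det = 0

/-- The embedding `X ↦ (cyclic shift of order κ + 1) ⊗ X`. -/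
def emb (κ N : ℕ) : Matrix (Fin N) (Fin N) ℚ →ₗ[ℚ]
    Matrix (Fin ((κ + 1) * N)) (Fin ((κ + 1) * N)) ℚ where
  toFun X := Matrix.of fun i j =>
    if (finProdFinEquiv.symm i).1 = (finProdFinEquiv.symm j).1 + 1 then
      X (finProdFinEquiv.symm i).2 (finProdFinEquiv.symm j).2 else 0
  map_add' X Y := by
    ext i j
    simp only [Matrix.of_apply, Matrix.add_apply]
    split_ifs <;> simp
  map_smul' c X := by
    ext i j
    simp only [Matrix.of_apply, Matrix.smul_apply, RingHom.id_apply]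
    split_ifs <;> simp

/-- EMB. -/
def S_EMB : Prop := ∀ (κ N : ℕ),
  (∀ X : Matrix (Fin N) (Fin N) ℚ, (emb κ N X).det ≠ 0 ↔ X.det ≠ 0) ∧
  (∀ B : Submodule ℚ (Matrix (Fin N) (Fin N) ℚ), com B (κ + 1) ≤ B →
    com (B.map (emb κ N)) (κ + 1) ≤ B.map (emb κ N)) ∧
  ∃ P : ZMod (κ + 1) → Matrix (Fin ((κ + 1) * N)) (Fin ((κ + 1) * N)) ℚ, ∑ i, P i = 1 ∧
    (∀ i j, P i * P j = if i = j then P i else 0) ∧
    ∀ (X : Matrix (Fin N) (Fin N) ℚ) (i : ZMod (κ + 1)), emb κ N X * P i = P (i + 1) * emb κ N X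

end Pool.Agent.Helper69K1.Gr
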