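import Pool.Agent.Helper69K1.Gr.Alg
import Pool.Agent.Helper69K1.Gr.Stm

/-!
# The rank of the commutator form, in polynomial time
-/

set_option linter.unusedSectionVars false

namespace Pool.Agent.Helper69K1.Gr

open Module Pool.Agent.NPC Pool.Agent.NPC.H532 Pool.Agent.H420_NCF Pool.Agent.H687R2.LLL
open Pool.Agent.Helper69K1

variable {α : Type} [TEnc α]

/-- The trace of a product. -/
def tr2 (N : ℕ) (w c : Mat) : ℤ :=
  ((List.range N).map fun i => ((List.range N).map fun j => entry w i j * entry c j i).sum).sum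

theorem poly_tr2 {N : α → ℕ} {w c : α → Mat} (hN : UPoly N) (hw : Poly w) (hc : Poly c) :
    Poly (fun a => tr2 (N a) (w a) (c a)) := by
  unfold tr2
  refine Poly_sumZ ?_
  refine NPC.Poly.map (F := fun a i => ((List.range (N a)).map fun j =>
    entry (w a) i j * entry (c a) j i).sum) hN.range ?_
  refine Poly_sumZ ?_
  have h1 : Poly (fun p : α × ℕ => p.1) := Poly.fst Poly.id
  refine NPC.Poly.map (α := α × ℕ) (F := fun p j => entry (w p.1) p.2 j * entry (c p.1) j p.2)
    (hN.comp h1).range ?_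
  have h2 : Poly (fun p : (α × ℕ) × ℕ => p.1.1) := Poly.fst (Poly.fst Poly.id)
  have h3 : Poly (fun p : (α × ℕ) × ℕ => p.1.2) := Poly.snd (Poly.fst Poly.id)
  have h4 : Poly (fun p : (α × ℕ) × ℕ => p.2) := Poly.snd Poly.id
  exact Poly_mulZ (Poly_entry (hw.comp h2) h3 h4) (Poly_entry (hc.comp h2) h4 h3)

theorem tr2_eq (N : ℕ) (w c : Mat) : (tr2 N w c : ℚ) = (mq N w * mq N c).trace := by
  rw [tr2, list_sum_range, Matrix.trace]
  refine Finset.sum_congr rfl fun i _ => ?_
  rw [list_sum_range, Matrix.diag_apply, Matrix.mul_apply]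
  refine Finset.sum_congr rfl fun j _ => ?_
  push_cast
  rfl

/-- The Gram matrix of the form. -/
def gram (N : ℕ) (L : List Mat) (w : Mat) : List (List ℤ) :=
  L.map fun a => L.map fun b => tr2 N w (brk N a b)

theorem poly_gram {N : α → ℕ} {L : α → List Mat} {w : α → Mat} (hN : UPoly N) (hL : Poly L)
    (hw : Poly w) : Poly (fun a => gram (N a) (L a) (w a)) := by
  unfold gram
  refine NPC.Poly.map (F := fun a x => (L a).map fun b => tr2 (N a) (w a) (brk (N a) x b)) hL ?_
  have h1 : Poly (fun p : α × Mat => p.1) := Poly.fst Poly.id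
  refine NPC.Poly.map (α := α × Mat) (F := fun p b => tr2 (N p.1) (w p.1) (brk (N p.1) p.2 b))
    (hL.comp h1) ?_
  have h2 : Poly (fun p : (α × Mat) × Mat => p.1.1) := Poly.fst (Poly.fst Poly.id)
  exact poly_tr2 (hN.comp h2) (hw.comp h2)
    (poly_brk (hN.comp h2) (Poly.snd (Poly.fst Poly.id)) (Poly.snd Poly.id))

/-- The rank of the form. -/
noncomputable def rho (N : ℕ) (L : List Mat) (w : Mat) : ℕ := rkF (gram N L w)

theorem poly_rho {N : α → ℕ} {L : α → List Mat} {w : α → Mat} (hN : UPoly N) (hL : Poly L)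
    (hw : Poly w) : Poly (fun a => rho (N a) (L a) (w a)) := poly_rkF (poly_gram hN hL hw)

theorem rho_eq (N : ℕ) (L : List Mat) (w : Mat) : rho N L w = rkA (spB N L) (mq N w) := by
  set A := spB N L with hA
  have hmem : ∀ B ∈ L, mq N B ∈ A := fun B hB => Submodule.subset_span ⟨B, hB, rfl⟩
  rw [rho, rkF_eq (n := L.length) (by
    intro v hv
    obtain ⟨a, -, rfl⟩ := List.mem_map.1 hv
    rw [List.length_map])]
  -- evaluation at the generators
  set g : Fin L.length → A := fun j => ⟨mq N L[j], hmem _ (List.getElem_mem _)⟩ with hg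
  set Ψ : Module.Dual ℚ A →ₗ[ℚ] (Fin L.length → ℚ) := LinearMap.pi fun j =>
    LinearMap.applyₗ (g j) with hΨ
  have hΨi : Function.Injective Ψ := by
    rw [← LinearMap.ker_eq_bot, LinearMap.ker_eq_bot']
    intro f hf
    have h1 : ∀ j, f (g j) = 0 := fun j => congrFun hf j
    refine LinearMap.ext fun ⟨a, ha⟩ => ?_
    have ha' : a ∈ Submodule.span ℚ {M | ∃ B ∈ L, M = mq N B} := ha
    induction ha' using Submodule.span_induction with
    | mem x hx =>
      obtain ⟨B, hB, rfl⟩ := hx
      obtain ⟨j, hj, rfl⟩ := List.getElem_of_mem hB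
      exact h1 ⟨j, hj⟩
    | zero => exact map_zero f
    | add x y hx hy h2 h3 =>
      have h4 := h2 hx
      have h5 := h3 hy
      have e : (⟨x + y, ha⟩ : A) = (⟨x, hx⟩ : A) + ⟨y, hy⟩ := rfl
      rw [e, map_add, h4, h5]
      simp
    | smul c x hx h2 =>
      have h4 := h2 hx
      have e : (⟨c • x, ha⟩ : A) = c • (⟨x, hx⟩ : A) := rfl
      rw [e, map_smul, h4]
      simp
  have hrow : ∀ B (hB : B ∈ L), vq L.length (L.map fun b => tr2 N w (brk N B b)) =
      Ψ (frm A (mq N w) ⟨mq N B, hmem B hB⟩) := by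
    intro B hB
    funext j
    change (((L.map fun b => tr2 N w (brk N B b)).getD j 0 : ℤ) : ℚ) =
      (mq N w * (mq N B * mq N L[j] - mq N L[j] * mq N B)).trace
    rw [List.getD_eq_getElem _ _ (by rw [List.length_map]; exact j.2), List.getElem_map, tr2_eq,
      mq_brk]
    rfl
  have hspan : vspan L.length (gram N L w) = LinearMap.range (Ψ ∘ₗ frm A (mq N w)) := by
    apply le_antisymm
    · refine Submodule.span_le.2 ?_
      rintro _ ⟨v, hv, rfl⟩
      obtain ⟨B, hB, rfl⟩ := List.mem_map.1 hv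
      rw [hrow B hB]
      exact ⟨_, rfl⟩
    · rintro _ ⟨⟨a, ha⟩, rfl⟩
      have ha' : a ∈ Submodule.span ℚ {M | ∃ B ∈ L, M = mq N B} := ha
      induction ha' using Submodule.span_induction with
      | mem x hx =>
        obtain ⟨B, hB, rfl⟩ := hx
        rw [LinearMap.comp_apply, ← hrow B hB]
        exact Submodule.subset_span ⟨_, List.mem_map.2 ⟨B, hB, rfl⟩, rfl⟩
      | zero =>
        have e : (⟨0, ha⟩ : A) = 0 := rfl
        rw [e, map_zero]
        exact Submodule.zero_mem _
      | add x y hx hy h2 h3 =>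
        have e : (⟨x + y, ha⟩ : A) = (⟨x, hx⟩ : A) + ⟨y, hy⟩ := rfl
        rw [e, map_add]
        exact Submodule.add_mem _ (h2 hx) (h3 hy)
      | smul c x hx h2 =>
        have e : (⟨c • x, ha⟩ : A) = c • (⟨x, hx⟩ : A) := rfl
        rw [e, map_smul]
        exact Submodule.smul_mem _ _ (h2 hx)
  rw [hspan, LinearMap.range_comp, rkA]
  exact LinearMap.finrank_range_of_inj (f := Ψ ∘ₗ (LinearMap.range (frm A (mq N w))).subtype)
    (hΨi.comp Subtype.val_injective) ▸ by
      rw [LinearMap.range_comp, Submodule.range_subtype]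

theorem rho_le (N : ℕ) (L : List Mat) (w : Mat) : rho N L w ≤ N * N := by
  rw [rho_eq, rkA]
  have h1 := Submodule.finrank_le (LinearMap.range (frm (spB N L) (mq N w)))
  have h2 : finrank ℚ (Module.Dual ℚ (spB N L)) = finrank ℚ (spB N L) :=
    Subspace.dual_finrank_eq
  have h3 := Submodule.finrank_le (spB N L)
  rw [Module.finrank_matrix] at h3
  simp only [Fintype.card_fin, finrank_self, mul_one] at h3
  omega

end Pool.Agent.Helper69K1.Gr
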