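import Pool.Agent.Helper69K1.Gr.Inner
import Pool.Agent.Helper69K1.AlgLts

/-!
# The test for graded spaces
-/

set_option linter.unusedSectionVars false

namespace Pool.Agent.Helper69K1.Gr

open Module Pool.Agent.NPC Pool.Agent.NPC.H532 Pool.Agent.H420_NCF Pool.Agent.H687R2.LLL
open Pool.Agent.Helper69K1

variable {α : Type} [TEnc α]

/-- The context of the inner search at a point. -/
noncomputable def ctx (p : Inp × List ℤ) : Ctx :=
  (p.1, (algF p.1.1.length ((dirL p).map fun u => cmb p.1.1.length p.1.2 u), dirL p))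

theorem poly_ctx : Poly ctx := by
  unfold ctx
  have h1 : Poly (fun p : Inp × List ℤ => p.1) := Poly.fst Poly.id
  have h2 : UPoly (fun p : Inp × List ℤ => p.1.1.length) := UPoly.length (Poly.fst h1)
  refine Poly.pair h1 (Poly.pair (poly_algF h2 (NPC.Poly.map
    (F := fun (p : Inp × List ℤ) u => cmb p.1.1.length p.1.2 u) poly_dirL ?_)) poly_dirL)
  exact poly_cmb (h2.comp (Poly.fst Poly.id)) ((Poly.snd h1).comp (Poly.fst Poly.id))
    (Poly.snd Poly.id)

/-- The directions of the outer search. -/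
noncomputable def dirG (p : Inp × List ℤ) : List (List ℤ) :=
  cands (p.1.1.length + 1) (dirL p) (inner (ctx p))

theorem poly_dirG : Poly dirG := by
  unfold dirG
  have h2 : UPoly (fun p : Inp × List ℤ => p.1.1.length) :=
    UPoly.length (Poly.fst (Poly.fst Poly.id))
  exact poly_cands (h2.add (UPoly.const 1)) poly_dirL (poly_inner.comp poly_ctx)

/-- The test. -/
noncomputable def testG (I : Inp) : Bool := decide (I.1.length ≤ sr I (loc dirG 1 I))

theorem poly_testG : Poly testG := by
  unfold testG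
  exact Poly.decide_le (UPoly.length (Poly.fst Poly.id)).toPoly
    (poly_sr Poly.id (poly_loc poly_dirG 1))

theorem testG_sound {I : Inp} (h : testG I = true) : ∃ c, (cq I.1.length I.2 c).det ≠ 0 :=
  ⟨_, det_ne_zero_of_sr (of_decide_eq_true h)⟩

theorem testG_complete (hG : S_G) {I : Inp} (κ : ℕ)
    (P : ZMod (κ + 1) → Matrix (Fin I.1.length) (Fin I.1.length) ℚ) (hP1 : ∑ i, P i = 1)
    (hP2 : ∀ i j, P i * P j = if i = j then P i else 0)
    (hP3 : ∀ X ∈ spB I.1.length I.2, ∀ i, X * P i = P (i + 1) * X)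
    (hB : com (spB I.1.length I.2) (κ + 1) ≤ spB I.1.length I.2)
    (h : ∃ c, (cq I.1.length I.2 c).det ≠ 0) : testG I = true := by
  obtain ⟨d, hd⟩ := h
  obtain ⟨hlen, hst⟩ := loc_spec dirG 1 I
  by_contra hcon
  apply hd
  set B := spB I.1.length I.2 with hBdef
  set c := loc dirG 1 I with hc
  set D := dirL (I, c) with hD
  set w := inner (ctx (I, c)) with hw
  obtain ⟨hk1, hk2⟩ := kdir_spec I.1.length (I.1.length * I.1.length) (cmb I.1.length I.2 c) I.2
  have hxq : mq I.1.length (cmb I.1.length I.2 c) = cq I.1.length I.2 (qv c) := mq_cmb _ _ _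
  rw [hxq] at hk1 hk2
  have hzn : ∀ u ∈ D, cq I.1.length I.2 (qv u) ∈ nullC B (cq I.1.length I.2 (qv c)) (I.1.length * I.1.length) := fun u hu =>
    ⟨cq_mem_spB _ _ _, (hk1 _ hu).2⟩
  have hspan : nullC B (cq I.1.length I.2 (qv c)) (I.1.length * I.1.length) ≤
      Submodule.span ℚ (Set.range fun i : Fin D.length => cq I.1.length I.2 (qv D[i])) := by
    rintro M ⟨hM1, hM2⟩
    obtain ⟨e, rfl⟩ := mem_spB.1 hM1
    refine Submodule.span_mono ?_ (hk2 e hM2)
    rintro _ ⟨u, hu, rfl⟩
    obtain ⟨i, hi, rfl⟩ := List.getElem_of_mem hu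
    exact ⟨⟨i, hi⟩, rfl⟩
  have hwlen : w.length = I.2.length := inner_length _
  have hwn : cq I.1.length I.2 (qv w) ∈ nullC B (cq I.1.length I.2 (qv c)) (I.1.length * I.1.length) :=
    inner_mem (ctx (I, c)) _ hzn
  have hadd : ∀ (u : List ℤ) (t : ℕ), cq I.1.length I.2 (qv (addv w u t)) =
      cq I.1.length I.2 (qv w) + (t : ℚ) • cq I.1.length I.2 (qv u) := by
    intro u t
    have h3 := cq_addv (N := I.1.length) (Bs := I.2) (c := w) (by omega) u t 0
    rwa [add_zero, zero_add, cq_add, cq_smul] at h3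
  have halg : spB I.1.length (ctx (I, c)).2.1 = Subalgebra.toSubmodule (Algebra.adjoin ℚ
      (nullC B (cq I.1.length I.2 (qv c)) (I.1.length * I.1.length) : Set (Matrix (Fin I.1.length) (Fin I.1.length) ℚ))) := by
    change spB I.1.length (algF I.1.length (D.map fun u => cmb I.1.length I.2 u)) = _
    rw [spB_algF]
    congr 1
    apply le_antisymm
    · refine Algebra.adjoin_le ?_
      rintro _ ⟨Z, hZ, rfl⟩
      obtain ⟨u, hu, rfl⟩ := List.mem_map.1 hZ
      rw [mq_cmb]
      exact Algebra.subset_adjoin (hzn u hu)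
    · refine Algebra.adjoin_le ?_
      intro M hM
      have h4 := hspan hM
      have h5 : Submodule.span ℚ (Set.range fun i : Fin D.length => cq I.1.length I.2 (qv D[i])) ≤
          Subalgebra.toSubmodule (Algebra.adjoin ℚ {M : Matrix (Fin I.1.length) (Fin I.1.length) ℚ |
            ∃ Z ∈ D.map fun u => cmb I.1.length I.2 u, M = mq I.1.length Z}) := by
        refine Submodule.span_le.2 ?_
        rintro _ ⟨i, rfl⟩
        refine Algebra.subset_adjoin ⟨cmb I.1.length I.2 D[i], List.mem_map.2 ⟨_, List.getElem_mem _, rfl⟩,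
          ?_⟩
        rw [mq_cmb]
      exact h5 h4
  have hpot : ∀ c', c'.length = I.2.length → pot (ctx (I, c)) c' =
      rkA (Subalgebra.toSubmodule (Algebra.adjoin ℚ
        (nullC B (cq I.1.length I.2 (qv c)) (I.1.length * I.1.length) : Set (Matrix (Fin I.1.length) (Fin I.1.length) ℚ))))
        (cq I.1.length I.2 (qv c')) := by
    intro c' _
    rw [← halg, ← mq_cmb]
    exact rho_eq _ _ _
  refine hG (Fin I.1.length) κ P hP1 hP2 B hP3 hB (cq I.1.length I.2 (qv c)) (cq_mem_spB I.1.length I.2 (qv c)) (I.1.length * I.1.length)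
    ?_ D.length (fun i => cq I.1.length I.2 (qv D[i])) (fun i => hzn _ (List.getElem_mem _)) hspan
    (cq I.1.length I.2 (qv w)) hwn ?_ ?_ ?_ _ (cq_mem_spB I.1.length I.2 d)
  · rw [Module.finrank_matrix]
    simp
  · intro i t ht s
    rw [Fintype.card_fin] at ht
    have h1 := hst (s • qv (addv w D[i] t)) ⟨0, rfl, addv w D[i] t, mem_cands.2
      ⟨D[i], List.getElem_mem _, t, by
        change t < I.1.length + 1
        omega, rfl⟩, s, by rw [zero_add]⟩
    rwa [cq_add, cq_smul, hadd] at h1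
  · intro i t ht
    rw [Fintype.card_fin] at ht
    have h1 := inner_stuck (ctx (I, c)) D[i] (List.getElem_mem _) t (by
      change t < TT I.1.length
      unfold TT
      have : I.1.length ^ 2 = I.1.length * I.1.length := pow_two I.1.length
      omega)
    rw [hpot _ (by rw [length_addv]; exact hwlen), hpot _ hwlen, hadd] at h1
    exact h1
  · by_contra hdet
    apply hcon
    rw [testG, decide_eq_true_iff, sr_eq]
    have h1 := (srk_eq_card_iff (cq I.1.length I.2 (qv c))).2 hdet
    rw [Fintype.card_fin] at h1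
    exact h1.ge

/-! ## The embedding -/

/-- The list form of the embedding. -/
def embM (κ N : ℕ) (B : Mat) : Mat :=
  tab ((κ + 1) * N) fun i j => if i / N = (j / N + 1) % (κ + 1) then entry B (i % N) (j % N) else 0

theorem mq_embM (κ N : ℕ) (B : Mat) : mq ((κ + 1) * N) (embM κ N B) = emb κ N (mq N B) := by
  ext i j
  rw [mq, embM, entry_tab _ i.2 j.2]
  change _ = if (finProdFinEquiv.symm i).1 = (finProdFinEquiv.symm j).1 + 1 then
      mq N B (finProdFinEquiv.symm i).2 (finProdFinEquiv.symm j).2 else 0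
  have e1 : ∀ i : Fin ((κ + 1) * N), ((finProdFinEquiv.symm i).1 : ℕ) = i / N ∧
      ((finProdFinEquiv.symm i).2 : ℕ) = i % N := fun i => ⟨rfl, rfl⟩
  have e2 : ((finProdFinEquiv.symm i).1 = (finProdFinEquiv.symm j).1 + 1) ↔
      (i : ℕ) / N = ((j : ℕ) / N + 1) % (κ + 1) := by
    rw [Fin.ext_iff, Fin.val_add, (e1 i).1, (e1 j).1]
    constructor
    · intro h
      rw [h, Fin.val_one']
      simp
    · intro h
      rw [h, Fin.val_one']
      simp
  by_cases h : (i : ℕ) / N = ((j : ℕ) / N + 1) % (κ + 1)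
  · rw [if_pos h, if_pos (e2.2 h), mq, (e1 i).2, (e1 j).2]
  · rw [if_neg h, if_neg (fun h' => h (e2.1 h'))]
    simp

/-- The input of the test: the second component is a unary number `κ`. -/
def embI (p : Inp × List Unit) : Inp :=
  (List.replicate ((p.2.length + 1) * p.1.1.length) (), p.1.2.map fun B => embM p.2.length p.1.1.length B)

theorem poly_embI : Poly embI := by
  unfold embI
  have hN : UPoly (fun p : Inp × List Unit => p.1.1.length) :=
    UPoly.length (Poly.fst (Poly.fst Poly.id))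
  have hk : UPoly (fun p : Inp × List Unit => p.2.length) := UPoly.length (Poly.snd Poly.id)
  have hk1 : UPoly (fun p : Inp × List Unit => (p.2.length + 1) * p.1.1.length) :=
    (hk.add (UPoly.const 1)).mul hN
  refine Poly.pair hk1 (NPC.Poly.map (F := fun (p : Inp × List Unit) B =>
    embM p.2.length p.1.1.length B) (Poly.snd (Poly.fst Poly.id)) ?_)
  unfold embM
  refine Poly_tab (f := fun (q : (Inp × List Unit) × Mat) i j =>
    if i / q.1.1.1.length = (j / q.1.1.1.length + 1) % (q.1.2.length + 1) then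
      entry q.2 (i % q.1.1.1.length) (j % q.1.1.1.length) else 0)
    (hk1.comp (Poly.fst Poly.id)) ?_
  have g1 : Poly (fun p : (((Inp × List Unit) × Mat) × ℕ) × ℕ => p.1.1) :=
    Poly.fst (Poly.fst Poly.id)
  have g2 : Poly (fun p : (((Inp × List Unit) × Mat) × ℕ) × ℕ => p.1.2) :=
    Poly.snd (Poly.fst Poly.id)
  have g3 : Poly (fun p : (((Inp × List Unit) × Mat) × ℕ) × ℕ => p.2) := Poly.snd Poly.id
  have g4 : Poly (fun p : (((Inp × List Unit) × Mat) × ℕ) × ℕ => p.1.1.1.1.1.length) :=
    (hN.comp (Poly.fst g1)).toPoly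
  have g5 : Poly (fun p : (((Inp × List Unit) × Mat) × ℕ) × ℕ => p.1.1.1.2.length + 1) :=
    ((hk.comp (Poly.fst g1)).add (UPoly.const 1)).toPoly
  exact Poly.ite (p := fun p : (((Inp × List Unit) × Mat) × ℕ) × ℕ =>
      p.1.2 / p.1.1.1.1.1.length = (p.2 / p.1.1.1.1.1.length + 1) % (p.1.1.1.2.length + 1))
    (Poly.decide_eq (NPC.Poly.div g2 g4)
      (NPC.Poly.mod (Poly.add (NPC.Poly.div g3 g4) (NPC.Poly.const 1)) g5))
    (Poly_entry (Poly.snd g1) (NPC.Poly.mod g2 g4) (NPC.Poly.mod g3 g4)) (NPC.Poly.const 0)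

end Pool.Agent.Helper69K1.Gr
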